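import Pool.Agent.Lib.XE.Defs

/-!
ALG. `c (1 + a x)(1 + b y) = (s x y)^2 + 1`, all `>= 1`. Expand:
`(c-1) + a c x + b c y + a b c x y = s^2 x^2 y^2`. Modulo `x`: `x` divides `(c-1) + b c y`, say `= alpha x`; divide by `x`:
`a c + alpha + a b c y = s^2 x y^2`, so `y` divides `a c + alpha`, say `= g y`; divide by `y`: `g + a b c = s^2 x y`.
-/

namespace Pool.Agent.Lib.XE

set_option linter.unusedVariables false in
theorem alg {s x y a b c : ℕ} (hs : 1 ≤ s) (hx : 1 ≤ x) (hy : 1 ≤ y) (ha : 1 ≤ a) (hb : 1 ≤ b) (hc : 1 ≤ c)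
    (h : c * (1 + a * x) * (1 + b * y) = (s * x * y) ^ 2 + 1) :
    ∃ g : ℕ, 1 ≤ g ∧ g + a * b * c = s ^ 2 * x * y ∧ c + a * c * x + b * c * y = g * x * y + 1 ∧
      (x : ℤ) * kap s y a c g = g * y - a * (c - 1) ∧ kap s y a c g ≠ 0 := by
  obtain ⟨c0, rfl⟩ : ∃ c0, c = 1 + c0 := ⟨c - 1, by omega⟩
  have e0 : (c0 + b * (1 + c0) * y) + x * (a * (1 + c0) + a * b * (1 + c0) * y) = x * (s ^ 2 * x * y ^ 2) := by
    ring_nf at h ⊢
    omega
  have hdx : x ∣ c0 + b * (1 + c0) * y := by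
    have h2 : x ∣ (c0 + b * (1 + c0) * y) + x * (a * (1 + c0) + a * b * (1 + c0) * y) := e0 ▸ Dvd.intro _ rfl
    exact (Nat.dvd_add_left (Dvd.intro _ rfl)).1 h2
  obtain ⟨al, hal⟩ := hdx
  have e1 : (al + a * (1 + c0)) + y * (a * b * (1 + c0)) = y * (s ^ 2 * x * y) := by
    have h1 : x * ((al + a * (1 + c0)) + y * (a * b * (1 + c0))) = x * (y * (s ^ 2 * x * y)) := by
      rw [hal] at e0
      calc x * ((al + a * (1 + c0)) + y * (a * b * (1 + c0)))
          = x * al + x * (a * (1 + c0) + a * b * (1 + c0) * y) := by ring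
        _ = x * (s ^ 2 * x * y ^ 2) := e0
        _ = _ := by ring
    exact Nat.eq_of_mul_eq_mul_left hx h1
  have hdy : y ∣ al + a * (1 + c0) := by
    have h2 : y ∣ (al + a * (1 + c0)) + y * (a * b * (1 + c0)) := e1 ▸ Dvd.intro _ rfl
    exact (Nat.dvd_add_left (Dvd.intro _ rfl)).1 h2
  obtain ⟨g, hg⟩ := hdy
  have e2 : g + a * b * (1 + c0) = s ^ 2 * x * y := by
    have h1 : y * (g + a * b * (1 + c0)) = y * (s ^ 2 * x * y) := by
      rw [← e1, hg]; ring
    exact Nat.eq_of_mul_eq_mul_left hy h1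
  have e3 : c0 + b * (1 + c0) * y + a * (1 + c0) * x = g * x * y := by
    calc c0 + b * (1 + c0) * y + a * (1 + c0) * x = x * (al + a * (1 + c0)) := by rw [hal]; ring
      _ = g * x * y := by rw [hg]; ring
  have hg1 : 1 ≤ g := by
    rcases Nat.eq_zero_or_pos g with h0 | h0
    · exfalso
      subst h0
      have : 1 ≤ b * (1 + c0) * y := Nat.mul_pos (Nat.mul_pos hb (by omega)) hy
      simp only [zero_mul] at e3
      omega
    · exact h0
  have e2z : (g : ℤ) + a * b * (1 + c0) = s ^ 2 * x * y := by exact_mod_cast e2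
  have e3z : (c0 : ℤ) + b * (1 + c0) * y + a * (1 + c0) * x = g * x * y := by exact_mod_cast e3
  have e4 : (x : ℤ) * kap s y a (1 + c0) g = g * y - a * (((1 + c0 : ℕ) : ℤ) - 1) := by
    unfold kap
    push_cast
    linear_combination (-(y : ℤ)) * e2z + (a : ℤ) * e3z
  refine ⟨g, hg1, e2, by linarith, e4, ?_⟩
  intro h0
  rw [h0, mul_zero] at e4
  have e5 : (g : ℤ) * y = a * c0 := by push_cast at e4; linarith
  have e6 : (a : ℤ) ^ 2 + s ^ 2 * y ^ 2 = 0 := by
    unfold kap at h0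
    push_cast at h0
    linear_combination h0 + (a : ℤ) * e5
  have ha' : (1 : ℤ) ≤ a := by exact_mod_cast ha
  nlinarith [sq_nonneg ((s : ℤ) * y), mul_pow (s : ℤ) (y : ℤ) 2]

end Pool.Agent.Lib.XE
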