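import Pool.Agent.Lib.XE.Defs

/-!
ANA (row 18, 130 lines; only Mathlib). `y = floor (sqrt (log X))`. Each of the terms is at most `X^(1/3000)` for large `X`:
`2^y <= exp (sqrt (log X))`, `sqrt (log X) <= (log X)/3000` for large `X`; `4 (1 + log X)/sqrt y <= (log X)/4000` for large `X` since
`y -> oo`; `X^(1/2000) (1 + log X) <= X^(1/1500)`. (`Real.isLittleO_log_id_atTop`, `isLittleO_log_rpow_atTop`, `Filter.Eventually`; all over
the natural numbers `X`, cast to the reals.)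
-/

namespace Pool.Agent.Lib.XE

/-- the parameter `y` -/
noncomputable def yy (X : ℕ) : ℕ := ⌊Real.sqrt (Real.log X)⌋₊

private theorem ana_core (A L : ℝ) (y : ℕ) (h1 : (300000000 : ℝ) ^ 2 ≤ L) (h2 : 16000000 * |A| ≤ L)
    (hy : y = ⌊Real.sqrt L⌋₊) : 1 ≤ y ∧
    A * ((2 : ℝ) ^ y + Real.exp (4 * (1 + L) / Real.sqrt y) +
      Real.exp (L * (1 / 2000)) * (1 + L) + 1) ≤ Real.exp (L * (1 / 1000)) := by
  have hL0 : (0 : ℝ) < L := lt_of_lt_of_le (by norm_num) h1
  have hs : (300000000 : ℝ) ≤ Real.sqrt L := by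
    rw [show (300000000 : ℝ) = Real.sqrt ((300000000 : ℝ) ^ 2) from (Real.sqrt_sq (by norm_num)).symm]
    exact Real.sqrt_le_sqrt h1
  have hs0 : (0 : ℝ) ≤ Real.sqrt L := Real.sqrt_nonneg L
  have hyle : (y : ℝ) ≤ Real.sqrt L := by
    rw [hy]
    exact Nat.floor_le hs0
  have hyge : Real.sqrt L < (y : ℝ) + 1 := by
    rw [hy]
    exact Nat.lt_floor_add_one _
  have hybig : (256000000 : ℝ) ≤ (y : ℝ) := by linarith
  have hy1 : 1 ≤ y := by
    have : (1 : ℝ) ≤ (y : ℝ) := by linarith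
    exact_mod_cast this
  refine ⟨hy1, ?_⟩
  set t : ℝ := L * (1 / 2000) with ht
  have ht0 : 0 ≤ t := by rw [ht]; positivity
  have e1 : (2 : ℝ) ^ y ≤ Real.exp t := by
    have h3 : (2 : ℝ) ^ y ≤ Real.exp (y : ℝ) := by
      have h4 : (2 : ℝ) ≤ Real.exp 1 := by
        have := Real.add_one_le_exp (1 : ℝ)
        linarith
      calc (2 : ℝ) ^ y ≤ (Real.exp 1) ^ y := pow_le_pow_left₀ (by norm_num) h4 y
        _ = Real.exp (y : ℝ) := by rw [← Real.exp_nat_mul, mul_one]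
    refine h3.trans (Real.exp_le_exp.2 ?_)
    have h5 : Real.sqrt L * Real.sqrt L = L := Real.mul_self_sqrt hL0.le
    have h6 : Real.sqrt L * 2000 ≤ L := by
      calc Real.sqrt L * 2000 ≤ Real.sqrt L * Real.sqrt L :=
            mul_le_mul_of_nonneg_left (by linarith) hs0
        _ = L := h5
    rw [ht]
    linarith
  have e2 : Real.exp (4 * (1 + L) / Real.sqrt y) ≤ Real.exp t := by
    apply Real.exp_le_exp.2
    have h3 : (16000 : ℝ) ≤ Real.sqrt y := by
      rw [show (16000 : ℝ) = Real.sqrt ((16000 : ℝ) ^ 2) from (Real.sqrt_sq (by norm_num)).symm]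
      apply Real.sqrt_le_sqrt
      calc ((16000 : ℝ)) ^ 2 = 256000000 := by norm_num
        _ ≤ (y : ℝ) := hybig
    have h4 : (0 : ℝ) < Real.sqrt y := by linarith
    rw [div_le_iff₀ h4]
    have h5 : t * 16000 ≤ t * Real.sqrt y := mul_le_mul_of_nonneg_left h3 ht0
    have h6 : (1 : ℝ) ≤ L := le_trans (by norm_num) h1
    have h7 : 4 * (1 + L) ≤ t * 16000 := by
      rw [ht]
      linarith
    linarith
  have e3 : (1 : ℝ) ≤ Real.exp t := Real.one_le_exp ht0
  have hexp : Real.exp (L * (1 / 1000)) = Real.exp t * Real.exp t := by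
    rw [← Real.exp_add, ht]
    congr 1
    ring
  have hE : 0 < Real.exp t := Real.exp_pos t
  have e4 : |A| * (4 + L) ≤ Real.exp t := by
    have h3 := Real.quadratic_le_exp_of_nonneg ht0
    have h4 : (4 : ℝ) ≤ L := le_trans (by norm_num) h1
    have h5 : |A| * (4 + L) ≤ |A| * (2 * L) := mul_le_mul_of_nonneg_left (by linarith) (abs_nonneg A)
    have h6 : 16000000 * |A| * L ≤ L * L := mul_le_mul_of_nonneg_right h2 hL0.le
    have h7 : t ^ 2 / 2 = L * L / 8000000 := by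
      rw [ht]
      ring
    nlinarith
  have hsum : (2 : ℝ) ^ y + Real.exp (4 * (1 + L) / Real.sqrt y) + Real.exp t * (1 + L) + 1
      ≤ Real.exp t * (4 + L) := by nlinarith
  have hpos : 0 ≤ (2 : ℝ) ^ y + Real.exp (4 * (1 + L) / Real.sqrt y) + Real.exp t * (1 + L) + 1 := by
    positivity
  calc A * ((2 : ℝ) ^ y + Real.exp (4 * (1 + L) / Real.sqrt y) + Real.exp t * (1 + L) + 1)
      ≤ |A| * ((2 : ℝ) ^ y + Real.exp (4 * (1 + L) / Real.sqrt y) + Real.exp t * (1 + L) + 1) :=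
        mul_le_mul_of_nonneg_right (le_abs_self A) hpos
    _ ≤ |A| * (Real.exp t * (4 + L)) := mul_le_mul_of_nonneg_left hsum (abs_nonneg A)
    _ = Real.exp t * (|A| * (4 + L)) := by ring
    _ ≤ Real.exp t * Real.exp t := mul_le_mul_of_nonneg_left e4 hE.le
    _ = Real.exp (L * (1 / 1000)) := hexp.symm

theorem ana (A : ℝ) : ∃ X0 : ℕ, ∀ X : ℕ, X0 ≤ X → 1 ≤ yy X ∧
    A * ((2 : ℝ) ^ yy X + Real.exp (4 * (1 + Real.log X) / Real.sqrt (yy X)) +
      (X : ℝ) ^ (1 / 2000 : ℝ) * (1 + Real.log X) + 1) ≤ (X : ℝ) ^ (1 / 1000 : ℝ) := by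
  set M : ℝ := max ((300000000 : ℝ) ^ 2) (16000000 * |A|) with hM
  refine ⟨⌈Real.exp M⌉₊, fun X hX => ?_⟩
  have h1 : Real.exp M ≤ (X : ℝ) := (Nat.le_ceil _).trans (by exact_mod_cast hX)
  have hX0 : (0 : ℝ) < (X : ℝ) := lt_of_lt_of_le (Real.exp_pos M) h1
  have h2 : M ≤ Real.log X := (Real.le_log_iff_exp_le hX0).2 h1
  have h3 := ana_core A (Real.log X) (yy X) ((le_max_left _ _).trans h2) ((le_max_right _ _).trans h2) rfl
  rw [Real.rpow_def_of_pos hX0, Real.rpow_def_of_pos hX0]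
  exact h3

end Pool.Agent.Lib.XE
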