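import Pool.Agent.Lib.XE.Viet

/-!
ASA (row 13, 80 lines; uses `vieta`). Words: `q` prime, so `q - 1 >= 1` and `q = 1 + h*t` with `t >= 1` (`h | q-1`). `n' = (k^2+1)/q > 1`
because `k^2+1` is not prime. `k = h*j`. `vieta` with `d = h`: `n' = 1 + h*u`, `u >= 1`. `k` not in `Bad3 X L N` (with `d = h` and
`t`, resp. `u`): `q > N` and `n' > N`, so `q*N <= q*n' = k^2+1`. `k` not in `Bad4 X D`: `h < D`.
-/

namespace Pool.Agent.Lib.XE

theorem big_q {X L N D k q h : ℕ} (hk : k ∈ Finset.Ioc X (2 * X)) (hp : ¬ (k ^ 2 + 1).Prime)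
    (n3 : k ∉ Bad3 X L N) (n4 : k ∉ Bad4 X D) (hq : q.Prime) (hqm : q ∣ k ^ 2 + 1) (hh : h ∣ q - 1)
    (hhk : h ∣ k) (hL : L ≤ h) :
    N < q ∧ h < D ∧ q * N ≤ k ^ 2 + 1 ∧ ∃ a : ℕ, 1 ≤ a ∧ q = 1 + a * h := by
  classical
  have hk1 : 1 ≤ k := by
    have := (Finset.mem_Ioc.mp hk).1
    omega
  obtain ⟨t, ht⟩ := hh
  have hhk' := hhk
  obtain ⟨j, hj⟩ := hhk
  have hqm' := hqm
  obtain ⟨n', hn'⟩ := hqm
  have hq2 := hq.two_le
  have hqe : q = 1 + h * t := by omega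
  have ht1 : 1 ≤ t := by
    rcases Nat.eq_zero_or_pos t with h0 | h0
    · subst h0; rw [Nat.mul_zero] at ht; omega
    · exact h0
  have hn1 : 1 < n' := by
    rcases Nat.lt_trichotomy n' 1 with h0 | h0 | h0
    · have : n' = 0 := by omega
      subst this; rw [Nat.mul_zero] at hn'; omega
    · subst h0; rw [Nat.mul_one] at hn'; rw [hn'] at hp; exact absurd hq hp
    · exact h0
  obtain ⟨u, w, hu, _, hnu, _, _, _, _, _⟩ := vieta hk1 hj ht1 hn1 (by rw [← hqe]; exact hn'.symm)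
  have hNq : N < q := by
    by_contra hcon
    refine n3 (Finset.mem_filter.mpr ⟨hk, ?_⟩)
    exact ⟨h, t, hL, hhk', ht1, by rw [← hqe]; omega, by rw [← hqe]; exact hqm'⟩
  have hNn : N < n' := by
    by_contra hcon
    refine n3 (Finset.mem_filter.mpr ⟨hk, ?_⟩)
    exact ⟨h, u, hL, hhk', hu, by rw [← hnu]; omega, by
      rw [← hnu, hn']; exact Dvd.intro_left q rfl⟩
  refine ⟨hNq, ?_, ?_, t, ht1, by rw [hqe]; ring⟩
  · by_contra hcon
    refine n4 (Finset.mem_filter.mpr ⟨hk, ?_⟩)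
    exact ⟨h, j, t, u, hj, by omega, ht1, hu, by rw [← hqe, ← hnu]; exact hn'.symm⟩
  · rw [hn']
    exact Nat.mul_le_mul_left _ hNn.le

end Pool.Agent.Lib.XE
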