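import Pool.Agent.Lib.XE.Defs

/-!
ASB (row 14, 130 lines). Words.
`small_a`: `(prod h)^50 = prod h^50 <= prod q <= k^2+1 <= 5 X^2`.
`small_b`: `e = prod h` divides `k`, every prime factor of `e` divides some `h q <= y`, so is `<= y`; if `e >= z` then `k` is in
`Bad1 X y z`.
`greedy`: if all `h q < L` and `prod over P >= z`, some subset `Q` has `z <= prod_Q h < z * L` or `prod_Q h <= z*L`: induction on `P`: remove one
element `q`; if the product of the rest is still `>= z` use induction, otherwise `prod_P h = h q * rest < L z`.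
`small_c`: if `prod_P h >= z` take `Q` from `greedy`; `prod_Q q <= prod_Q h^50 <= (z L)^50`, so
`prod_Q h * prod_Q q <= (z L)^51 <= X`, and `k` is in `Bad2 X y z`.
(Divisibility: `prod_Q h | prod_P h | k`, `prod_Q q | prod_P q | k^2+1`, `Finset.prod_dvd_prod_of_subset`.)
-/

namespace Pool.Agent.Lib.XE

theorem small_a {X k : ℕ} (hX : 1 ≤ X) (hk : k ∈ Finset.Ioc X (2 * X)) (P : Finset ℕ) (h : ℕ → ℕ)
    (h1 : (∏ q ∈ P, q) ∣ k ^ 2 + 1) (h2 : ∀ q ∈ P, h q ^ 50 ≤ q) : (∏ q ∈ P, h q) ^ 50 ≤ 5 * X ^ 2 := by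
  have h3 : (∏ q ∈ P, h q) ^ 50 ≤ ∏ q ∈ P, q := by
    rw [← Finset.prod_pow]
    exact Finset.prod_le_prod (fun _ _ => Nat.zero_le _) h2
  have h4 : ∏ q ∈ P, q ≤ k ^ 2 + 1 := Nat.le_of_dvd (Nat.succ_pos _) h1
  have h5 : k ≤ 2 * X := (Finset.mem_Ioc.1 hk).2
  have h6 : k ^ 2 ≤ (2 * X) ^ 2 := Nat.pow_le_pow_left h5 2
  have h7 : 1 ≤ X ^ 2 := Nat.one_le_pow 2 X hX
  have h8 : (2 * X) ^ 2 = 4 * X ^ 2 := by ring
  omega

theorem small_b {X y z k : ℕ} (hk : k ∈ Finset.Ioc X (2 * X)) (n1 : k ∉ Bad1 X y z) (P : Finset ℕ) (h : ℕ → ℕ)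
    (h1 : (∏ q ∈ P, h q) ∣ k) (h2 : ∀ q ∈ P, h q ≤ y) : ∏ q ∈ P, h q < z := by
  classical
  by_contra hz
  rw [not_lt] at hz
  apply n1
  have hk0 : k ≠ 0 := by
    have := (Finset.mem_Ioc.1 hk).1
    omega
  have hne : ∏ q ∈ P, h q ≠ 0 := fun h0 => hk0 (Nat.eq_zero_of_zero_dvd (h0 ▸ h1))
  unfold Bad1
  refine Finset.mem_filter.2 ⟨hk, ∏ q ∈ P, h q, h1, hz, fun p hp hpe => ?_⟩
  obtain ⟨q, hq, hpq⟩ := (Prime.dvd_finsetProd_iff hp.prime _).1 hpe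
  have hq0 : h q ≠ 0 := fun h0 => hne (Finset.prod_eq_zero hq h0)
  exact le_trans (Nat.le_of_dvd (Nat.pos_of_ne_zero hq0) hpq) (h2 q hq)

theorem greedy {L z : ℕ} (hL : 1 ≤ L) (h : ℕ → ℕ) (P : Finset ℕ) (h1 : ∀ q ∈ P, h q < L)
    (h2 : z ≤ ∏ q ∈ P, h q) (hz : 1 ≤ z) : ∃ Q ⊆ P, z ≤ ∏ q ∈ Q, h q ∧ ∏ q ∈ Q, h q ≤ z * L := by
  classical
  induction P using Finset.induction_on with
  | empty =>
    refine ⟨∅, Finset.Subset.refl _, h2, ?_⟩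
    rw [Finset.prod_empty]
    exact Nat.one_le_iff_ne_zero.2 (Nat.mul_ne_zero (by omega) (by omega))
  | insert a s ha ih =>
    by_cases hs : z ≤ ∏ q ∈ s, h q
    · obtain ⟨Q, hQ, h3⟩ := ih (fun q hq => h1 q (Finset.mem_insert_of_mem hq)) hs
      exact ⟨Q, fun x hx => Finset.mem_insert_of_mem (hQ hx), h3⟩
    · refine ⟨insert a s, Finset.Subset.refl _, h2, ?_⟩
      rw [Finset.prod_insert ha, mul_comm]
      exact Nat.mul_le_mul (by omega) (h1 a (Finset.mem_insert_self a s)).le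

theorem small_c {X y z L k : ℕ} (hk : k ∈ Finset.Ioc X (2 * X)) (hL : 1 ≤ L) (hz : 1 ≤ z)
    (hzL : (z * L) ^ 51 ≤ X) (n2 : k ∉ Bad2 X y z) (P : Finset ℕ) (h : ℕ → ℕ)
    (h1 : ∀ q ∈ P, q.Prime ∧ y < h q ∧ h q < L ∧ h q ∣ q - 1 ∧ q < h q ^ 50)
    (h2 : (∏ q ∈ P, h q) ∣ k) (h3 : (∏ q ∈ P, q) ∣ k ^ 2 + 1) : ∏ q ∈ P, h q < z := by
  classical
  by_contra hz'
  rw [not_lt] at hz'
  obtain ⟨Q, hQ, k1, k2⟩ := greedy hL h P (fun q hq => (h1 q hq).2.2.1) hz' hz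
  apply n2
  unfold Bad2
  refine Finset.mem_filter.2 ⟨hk, Q, h, fun q hq => ⟨(h1 q (hQ hq)).1, (h1 q (hQ hq)).2.1, (h1 q (hQ hq)).2.2.2.1⟩,
    dvd_trans (Finset.prod_dvd_prod_of_subset _ _ _ hQ) h2, dvd_trans (Finset.prod_dvd_prod_of_subset _ _ _ hQ) h3, ?_, k1⟩
  have k3 : ∏ q ∈ Q, q ≤ (∏ q ∈ Q, h q) ^ 50 := by
    rw [← Finset.prod_pow]
    exact Finset.prod_le_prod (fun _ _ => Nat.zero_le _) fun q hq => (h1 q (hQ hq)).2.2.2.2.le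
  calc (∏ q ∈ Q, h q) * (∏ q ∈ Q, q) ≤ (z * L) * (z * L) ^ 50 :=
        Nat.mul_le_mul k2 (k3.trans (Nat.pow_le_pow_left k2 50))
    _ = (z * L) ^ 51 := by ring
    _ ≤ X := hzL

end Pool.Agent.Lib.XE
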