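import Pool.Agent.Lib.XE.Asg
import Pool.Agent.Lib.XE.AsA
import Pool.Agent.Lib.XE.AsB

/-!
ASC (row 15, 180 lines; uses `assign`, `big_q`, `small_a`, `small_b`, `small_c`). Words: `m = k^2+1 <= 5 X^2`, `P = m.primeFactors`,
`h` from `assign`. Split `P` into `PD = {L <= h q}`, `PB = {h q < L, h q <= y}`, `PC = {h q < L, y < h q, q < (h q)^50}`,
`PA = {h q < L, y < h q, (h q)^50 <= q}`; `k = kA kB kC kD` (products of the `h q`; `Finset.prod_filter_mul_prod_filter_not`).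
Products of subsets of `P` divide `m` (`Nat.prod_primeFactors_dvd`), products of the `h q` over subsets divide `k`. `small_a`
and `h4`: `kA <= A0`; `small_b`: `kB < z`; `small_c`: `kC < z`. So `s = kA kB kC <= A0 z^2`. `big_q` for `q` in `PD`:
`N < q`, `h q < D`, `q N <= m`, `q = 1 + a (h q)`. If `PD` is empty or has one element, `k <= A0 z^2 D <= X < k`: contradiction. If it
has three different elements, `N^3 < q1 q2 q3 <= m <= 5 X^2 <= N^3`: contradiction. So `PD = {q1, q2}`, `x = h q1`, `v = h q2`,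
`c = m/(q1 q2)` (different primes).
-/

namespace Pool.Agent.Lib.XE

theorem structure_of_exc {X y L z N D A0 : ℕ} (hX : 1 ≤ X) (hL : 1 ≤ L) (hz : 1 ≤ z) (hD : 1 ≤ D)
    (h2 : (z * L) ^ 51 ≤ X) (h3 : 5 * X ^ 2 ≤ N ^ 3) (h4 : ∀ a : ℕ, a ^ 50 ≤ 5 * X ^ 2 → a ≤ A0)
    (h5 : A0 * z ^ 2 * D ≤ X) {k : ℕ} (hk : k ∈ Exc X) (n1 : k ∉ Bad1 X y z) (n2 : k ∉ Bad2 X y z)
    (n3 : k ∉ Bad3 X L N) (n4 : k ∉ Bad4 X D) :
    ∃ s x v a b c : ℕ, 1 ≤ s ∧ 1 ≤ x ∧ 1 ≤ v ∧ 1 ≤ a ∧ 1 ≤ b ∧ 1 ≤ c ∧ k = s * x * v ∧ s ≤ A0 * z ^ 2 ∧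
      x < D ∧ v < D ∧ c * (1 + a * x) * (1 + b * v) = k ^ 2 + 1 ∧ N < 1 + a * x ∧ N < 1 + b * v ∧
      (1 + a * x) * N ≤ k ^ 2 + 1 ∧ (1 + b * v) * N ≤ k ^ 2 + 1 := by
  obtain ⟨hkI, hkt, hkp⟩ := Finset.mem_filter.1 hk
  obtain ⟨hk1, hk2⟩ := Finset.mem_Ioc.1 hkI
  have hkpos : 1 ≤ k := by omega
  obtain ⟨h, hh, hprod⟩ := assign hkpos hkt
  obtain ⟨m, hm⟩ : ∃ m, m = k ^ 2 + 1 := ⟨_, rfl⟩
  have hm0 : 0 < m := by omega
  have hm5 : m ≤ 5 * X ^ 2 := by
    rw [hm]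
    nlinarith
  obtain ⟨P, hP⟩ : ∃ P : Finset ℕ, P = (k ^ 2 + 1).primeFactors := ⟨_, rfl⟩
  rw [← hP] at hh hprod
  -- divisibility
  have hdq : ∀ Q : Finset ℕ, Q ⊆ P → (∏ q ∈ Q, q) ∣ k ^ 2 + 1 := fun Q hQ =>
    (Finset.prod_dvd_prod_of_subset _ _ _ hQ).trans (by rw [hP]; exact Nat.prod_primeFactors_dvd _)
  have hdk : ∀ Q : Finset ℕ, Q ⊆ P → (∏ q ∈ Q, h q) ∣ k := fun Q hQ => by
    rw [← hprod]
    exact Finset.prod_dvd_prod_of_subset _ _ _ hQ
  have hprime : ∀ q ∈ P, q.Prime ∧ q ∣ k ^ 2 + 1 := fun q hq => by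
    rw [hP] at hq
    exact ⟨Nat.prime_of_mem_primeFactors hq, Nat.dvd_of_mem_primeFactors hq⟩
  -- the four parts
  obtain ⟨PD, hPD⟩ : ∃ PD, PD = P.filter (fun q => L ≤ h q) := ⟨_, rfl⟩
  obtain ⟨P1, hP1⟩ : ∃ P1, P1 = P.filter (fun q => ¬ L ≤ h q) := ⟨_, rfl⟩
  obtain ⟨PB, hPB⟩ : ∃ PB, PB = P1.filter (fun q => h q ≤ y) := ⟨_, rfl⟩
  obtain ⟨P2, hP2⟩ : ∃ P2, P2 = P1.filter (fun q => ¬ h q ≤ y) := ⟨_, rfl⟩
  obtain ⟨PC, hPC⟩ : ∃ PC, PC = P2.filter (fun q => q < h q ^ 50) := ⟨_, rfl⟩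
  obtain ⟨PA, hPA⟩ : ∃ PA, PA = P2.filter (fun q => ¬ q < h q ^ 50) := ⟨_, rfl⟩
  have sD : PD ⊆ P := by rw [hPD]; exact Finset.filter_subset _ _
  have s1 : P1 ⊆ P := by rw [hP1]; exact Finset.filter_subset _ _
  have sB : PB ⊆ P := by rw [hPB]; exact (Finset.filter_subset _ _).trans s1
  have s2 : P2 ⊆ P := by rw [hP2]; exact (Finset.filter_subset _ _).trans s1
  have sC : PC ⊆ P := by rw [hPC]; exact (Finset.filter_subset _ _).trans s2
  have sA : PA ⊆ P := by rw [hPA]; exact (Finset.filter_subset _ _).trans s2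
  have e1 : (∏ q ∈ PD, h q) * ∏ q ∈ P1, h q = k := by
    rw [hPD, hP1, Finset.prod_filter_mul_prod_filter_not, hprod]
  have e2 : (∏ q ∈ PB, h q) * ∏ q ∈ P2, h q = ∏ q ∈ P1, h q := by
    rw [hPB, hP2, Finset.prod_filter_mul_prod_filter_not]
  have e3 : (∏ q ∈ PC, h q) * ∏ q ∈ PA, h q = ∏ q ∈ P2, h q := by
    rw [hPC, hPA, Finset.prod_filter_mul_prod_filter_not]
  obtain ⟨kD, hkD⟩ : ∃ kD, kD = ∏ q ∈ PD, h q := ⟨_, rfl⟩
  obtain ⟨kB, hkB⟩ : ∃ kB, kB = ∏ q ∈ PB, h q := ⟨_, rfl⟩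
  obtain ⟨kC, hkC⟩ : ∃ kC, kC = ∏ q ∈ PC, h q := ⟨_, rfl⟩
  obtain ⟨kA, hkA⟩ : ∃ kA, kA = ∏ q ∈ PA, h q := ⟨_, rfl⟩
  rw [← hkC, ← hkA] at e3
  rw [← e3, ← hkB] at e2
  rw [← e2, ← hkD] at e1
  -- the small parts
  have bA : kA ≤ A0 := by
    refine h4 _ ?_
    rw [hkA]
    refine small_a hX hkI PA h (hdq PA sA) fun q hq => ?_
    rw [hPA] at hq
    exact not_lt.1 (Finset.mem_filter.1 hq).2
  have bB : kB < z := by
    rw [hkB]
    refine small_b hkI n1 PB h (hdk PB sB) fun q hq => ?_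
    rw [hPB] at hq
    exact (Finset.mem_filter.1 hq).2
  have bC : kC < z := by
    rw [hkC]
    refine small_c hkI hL hz h2 n2 PC h (fun q hq => ?_) (hdk PC sC) (hdq PC sC)
    have hqP := sC hq
    rw [hPC] at hq
    obtain ⟨q1, q2⟩ := Finset.mem_filter.1 hq
    rw [hP2] at q1
    obtain ⟨q3, q4⟩ := Finset.mem_filter.1 q1
    rw [hP1] at q3
    obtain ⟨_, q6⟩ := Finset.mem_filter.1 q3
    exact ⟨(hprime q hqP).1, not_le.1 q4, not_le.1 q6, hh q hqP, q2⟩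
  obtain ⟨s, hs⟩ : ∃ s, s = kB * (kC * kA) := ⟨_, rfl⟩
  rw [← hs] at e1
  have hs0 : 1 ≤ s := by
    rcases Nat.eq_zero_or_pos s with h0 | h0
    · rw [h0, Nat.mul_zero] at e1
      omega
    · exact h0
  have hsle : s ≤ A0 * z ^ 2 := by
    calc s = kB * (kC * kA) := hs
      _ ≤ z * (z * A0) := Nat.mul_le_mul bB.le (Nat.mul_le_mul bC.le bA)
      _ = A0 * z ^ 2 := by ring
  have hbig : ∀ q ∈ PD, N < q ∧ h q < D ∧ q * N ≤ k ^ 2 + 1 ∧ ∃ a : ℕ, 1 ≤ a ∧ q = 1 + a * h q := by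
    intro q hq
    have hqP := sD hq
    have hqL : L ≤ h q := by
      rw [hPD] at hq
      exact (Finset.mem_filter.1 hq).2
    have hqk : h q ∣ k := by
      have := hdk {q} (Finset.singleton_subset_iff.2 hqP)
      rwa [Finset.prod_singleton] at this
    exact big_q hkI hkp n3 n4 (hprime q hqP).1 (hprime q hqP).2 (hh q hqP) hqk hqL
  have hD1 : ¬ kD ≤ D := by
    intro hle
    have : k ≤ X := by
      calc k = kD * s := e1.symm
        _ ≤ D * (A0 * z ^ 2) := Nat.mul_le_mul hle hsle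
        _ = A0 * z ^ 2 * D := by ring
        _ ≤ X := h5
    omega
  rcases Nat.lt_or_ge PD.card 2 with hc | hc
  · exfalso
    refine hD1 ?_
    rcases Nat.lt_or_ge PD.card 1 with hc1 | hc1
    · have : PD = ∅ := Finset.card_eq_zero.1 (by omega)
      rw [hkD, this, Finset.prod_empty]
      exact hD
    · obtain ⟨q, hq⟩ := Finset.card_eq_one.1 (by omega : PD.card = 1)
      rw [hkD, hq, Finset.prod_singleton]
      exact (hbig q (by rw [hq]; exact Finset.mem_singleton_self q)).2.1.le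
  · rcases Nat.lt_or_ge 2 PD.card with hc2 | hc2
    · exfalso
      obtain ⟨q1, m1, q2, m2, q3, m3, d12, d13, d23⟩ := Finset.two_lt_card.1 hc2
      have hsub : ({q1, q2, q3} : Finset ℕ) ⊆ P := by
        intro q hq
        simp only [Finset.mem_insert, Finset.mem_singleton] at hq
        rcases hq with rfl | rfl | rfl
        · exact sD m1
        · exact sD m2
        · exact sD m3
      have hdv := hdq _ hsub
      have hpr : (∏ q ∈ ({q1, q2, q3} : Finset ℕ), q) = q1 * (q2 * q3) := by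
        rw [Finset.prod_insert (by simp [d12, d13]), Finset.prod_insert (by simp [d23]), Finset.prod_singleton]
      rw [hpr] at hdv
      have hle := Nat.le_of_dvd (by omega) hdv
      have b1 := (hbig q1 m1).1
      have b2 := (hbig q2 m2).1
      have b3 := (hbig q3 m3).1
      have hlt : N * (N * N) < q1 * (q2 * q3) := by
        have t1 : N * N ≤ q2 * q3 := Nat.mul_le_mul b2.le b3.le
        have t2 : 0 < q2 * q3 := Nat.mul_pos (by omega) (by omega)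
        calc N * (N * N) ≤ N * (q2 * q3) := Nat.mul_le_mul_left _ t1
          _ < q1 * (q2 * q3) := Nat.mul_lt_mul_of_pos_right b1 t2
      have hN3 : N ^ 3 = N * (N * N) := by ring
      rw [← hm] at hle
      omega
    · obtain ⟨q1, q2, d12, hq12⟩ := Finset.card_eq_two.1 (by omega : PD.card = 2)
      have m1 : q1 ∈ PD := by rw [hq12]; simp
      have m2 : q2 ∈ PD := by rw [hq12]; simp
      obtain ⟨b11, b12, b13, a, ha, hqa⟩ := hbig q1 m1
      obtain ⟨b21, b22, b23, b, hb, hqb⟩ := hbig q2 m2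
      have hdv := hdq PD sD
      have hpr : (∏ q ∈ PD, q) = q1 * q2 := by
        rw [hq12, Finset.prod_pair d12]
      rw [hpr] at hdv
      obtain ⟨c, hc⟩ := hdv
      have hkD2 : kD = h q1 * h q2 := by
        rw [hkD, hq12, Finset.prod_pair d12]
      have l1 : L ≤ h q1 := by
        rw [hPD] at m1
        exact (Finset.mem_filter.1 m1).2
      have l2 : L ≤ h q2 := by
        rw [hPD] at m2
        exact (Finset.mem_filter.1 m2).2
      have hc1 : 1 ≤ c := by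
        rcases Nat.eq_zero_or_pos c with h0 | h0
        · rw [h0, Nat.mul_zero] at hc
          omega
        · exact h0
      refine ⟨s, h q1, h q2, a, b, c, hs0, hL.trans l1, hL.trans l2, ha, hb, hc1, ?_, hsle, b12, b22, ?_,
        ?_, ?_, ?_, ?_⟩
      · rw [← e1, hkD2]
        ring
      · rw [← hqa, ← hqb, hc]
        ring
      · rw [← hqa]
        exact b11
      · rw [← hqb]
        exact b21
      · rw [← hqa]
        exact b13
      · rw [← hqb]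
        exact b23

end Pool.Agent.Lib.XE
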