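import Pool.Agent.Lib.XE.Alg

/-!
ASD (row 16, 130 lines; uses `alg`). Words: `m = k^2+1 <= 5 X^2`, `q1 = 1 + a x`, `q2 = 1 + b v`, both `> N`.
`c N^2 < c q1 q2 = m <= 5 X^2 <= C N^2`, so `c <= C`. `alg` gives `g >= 1` and `kap`.
`g x v = (c-1) + a c x + b c v <= c (q1 + q2)`, `q1 N, q2 N <= 5 X^2`, so `g x v N <= 10 C X^2`; `x v S >= x v s = k > X`; so
`g X N <= g (x v S) N <= 10 C S X^2`, `g N <= 10 C S X <= G N`, `g <= G`.
`|kap| x = |g v - a (c-1)| <= G D + a c`; `a x <= q1`, so (in the reals) `|kap| <= G D/x + C q1/x^2`; `x S D >= x s v = k > X`, so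
`1/x < S D/X`, `q1 <= 5 X^2/N`: `|kap| <= G S D^2/X + 5 C S^2 D^2/N <= K` by `h8`.
-/

namespace Pool.Agent.Lib.XE

theorem mem_bad5 {X N D S C G K : ℕ} (hX : 1 ≤ X) (hN : 1 ≤ N) (h6 : 5 * X ^ 2 ≤ C * N ^ 2)
    (h7 : 11 * C * S * X ≤ G * N) (h8 : G * S * D ^ 2 * N + 5 * C * S ^ 2 * D ^ 2 * X ≤ K * X * N)
    {k s x v a b c : ℕ} (hk : k ∈ Finset.Ioc X (2 * X)) (e1 : 1 ≤ s) (e2 : 1 ≤ x) (e3 : 1 ≤ v) (e4 : 1 ≤ a)
    (e5 : 1 ≤ b) (e6 : 1 ≤ c) (e7 : k = s * x * v) (e8 : s ≤ S) (e9 : x < D) (e10 : v < D)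
    (e11 : c * (1 + a * x) * (1 + b * v) = k ^ 2 + 1) (e12 : N < 1 + a * x) (e13 : N < 1 + b * v)
    (e14 : (1 + a * x) * N ≤ k ^ 2 + 1) (e15 : (1 + b * v) * N ≤ k ^ 2 + 1) : k ∈ Bad5 X S D C G K := by
  obtain ⟨hk1, hk2⟩ := Finset.mem_Ioc.1 hk
  -- the size of `m`
  have hm : k ^ 2 + 1 ≤ 5 * X ^ 2 := by nlinarith [Nat.mul_le_mul hk2 hk2, Nat.mul_le_mul hX hX]
  -- the bound of `c`
  have hcC : c ≤ C := by
    have h1 : N * N ≤ (1 + a * x) * (1 + b * v) := Nat.mul_le_mul e12.le e13.le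
    have h2 : c * N ^ 2 ≤ C * N ^ 2 := by
      calc c * N ^ 2 = c * (N * N) := by ring
        _ ≤ c * ((1 + a * x) * (1 + b * v)) := Nat.mul_le_mul_left _ h1
        _ = k ^ 2 + 1 := by rw [← e11]; ring
        _ ≤ 5 * X ^ 2 := hm
        _ ≤ C * N ^ 2 := h6
    exact Nat.le_of_mul_le_mul_right h2 (by positivity)
  obtain ⟨g, hg1, hga, hgb, hgk, hkap⟩ := alg e1 e2 e3 e4 e5 e6 (by rw [e11, e7])
  -- `X <= x v S` and `X <= x S D`
  have hX1 : X ≤ S * (x * v) := by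
    calc X ≤ k := hk1.le
      _ = s * (x * v) := by rw [e7]; ring
      _ ≤ S * (x * v) := Nat.mul_le_mul_right _ e8
  have hX2 : X ≤ x * S * D := by
    calc X ≤ S * (x * v) := hX1
      _ ≤ S * (x * D) := Nat.mul_le_mul_left _ (Nat.mul_le_mul_left _ e10.le)
      _ = x * S * D := by ring
  have hq1 : (1 + a * x) * N ≤ 5 * X ^ 2 := e14.trans hm
  have hq2 : (1 + b * v) * N ≤ 5 * X ^ 2 := e15.trans hm
  -- the bound of `g`
  have hgxv : g * x * v * N ≤ 10 * C * X ^ 2 := by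
    have h1 : g * x * v ≤ c * ((1 + a * x) + (1 + b * v)) := by
      have h2 : c * ((1 + a * x) + (1 + b * v)) = c + (c + a * c * x + b * c * v) := by ring
      rw [h2, hgb]
      omega
    calc g * x * v * N ≤ c * ((1 + a * x) + (1 + b * v)) * N := Nat.mul_le_mul_right _ h1
      _ = c * ((1 + a * x) * N + (1 + b * v) * N) := by ring
      _ ≤ C * (5 * X ^ 2 + 5 * X ^ 2) := Nat.mul_le_mul hcC (Nat.add_le_add hq1 hq2)
      _ = 10 * C * X ^ 2 := by ring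
  have hgG : g ≤ G := by
    have h1 : X * (g * N) ≤ X * (G * N) := by
      calc X * (g * N) ≤ S * (x * v) * (g * N) := Nat.mul_le_mul_right _ hX1
        _ = S * (g * x * v * N) := by ring
        _ ≤ S * (10 * C * X ^ 2) := Nat.mul_le_mul_left _ hgxv
        _ = X * (10 * C * S * X) := by ring
        _ ≤ X * (11 * C * S * X) := Nat.mul_le_mul_left _ (by gcongr; norm_num)
        _ ≤ X * (G * N) := Nat.mul_le_mul_left _ h7
    exact Nat.le_of_mul_le_mul_right (Nat.le_of_mul_le_mul_left h1 hX) hN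
  -- the bound of `kap`
  have hax : a * x * N ≤ 5 * X ^ 2 := le_trans (Nat.mul_le_mul_right _ (by omega)) hq1
  have haN : a * N ≤ 5 * X * S * D := by
    have h1 : X * (a * N) ≤ X * (5 * X * S * D) := by
      calc X * (a * N) ≤ x * S * D * (a * N) := Nat.mul_le_mul_right _ hX2
        _ = S * D * (a * x * N) := by ring
        _ ≤ S * D * (5 * X ^ 2) := Nat.mul_le_mul_left _ hax
        _ = X * (5 * X * S * D) := by ring
    exact Nat.le_of_mul_le_mul_left h1 hX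
  obtain ⟨κ, hκ⟩ : ∃ κ : ℕ, (κ : ℤ) = |kap s v a c g| := ⟨(kap s v a c g).natAbs, Int.natCast_natAbs _⟩
  have hκx : κ * x ≤ G * D + a * c := by
    have h1 : ((κ * x : ℕ) : ℤ) ≤ ((G * D + a * c : ℕ) : ℤ) := by
      have hc1 : (1 : ℤ) ≤ c := by exact_mod_cast e6
      have ha0 : (0 : ℤ) ≤ a := by positivity
      have hx0 : (0 : ℤ) ≤ x := by positivity
      have hgv : ((g : ℤ) * v) ≤ G * D := by exact_mod_cast Nat.mul_le_mul hgG e10.le
      have h2 : (κ : ℤ) * x = |(g : ℤ) * v - a * (c - 1)| := by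
        rw [← hgk, abs_mul, abs_of_nonneg hx0, hκ, mul_comm]
      have h3 : (0 : ℤ) ≤ (a : ℤ) * (c - 1) := mul_nonneg ha0 (by linarith)
      have h4 : (0 : ℤ) ≤ (g : ℤ) * v := by positivity
      have h5 : (0 : ℤ) ≤ (a : ℤ) * c := by positivity
      have h6 : (0 : ℤ) ≤ (G : ℤ) * D := by positivity
      have h7 : (a : ℤ) * (c - 1) = a * c - a := by ring
      push_cast
      rw [h2]
      refine abs_le.2 ⟨?_, ?_⟩
      · linarith
      · linarith
    exact_mod_cast h1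
  have hκK : κ ≤ K := by
    have h1 : κ * (X * N) ≤ K * (X * N) := by
      calc κ * (X * N) = X * (κ * N) := by ring
        _ ≤ x * S * D * (κ * N) := Nat.mul_le_mul_right _ hX2
        _ = κ * x * (S * D * N) := by ring
        _ ≤ (G * D + a * c) * (S * D * N) := Nat.mul_le_mul_right _ hκx
        _ = G * S * D ^ 2 * N + c * S * D * (a * N) := by ring
        _ ≤ G * S * D ^ 2 * N + C * S * D * (5 * X * S * D) := by gcongr
        _ = G * S * D ^ 2 * N + 5 * C * S ^ 2 * D ^ 2 * X := by ring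
        _ ≤ K * X * N := h8
        _ = K * (X * N) := by ring
    exact Nat.le_of_mul_le_mul_right h1 (Nat.mul_pos hX hN)
  classical
  unfold Bad5
  refine Finset.mem_filter.2 ⟨hk, s, x, v, a, c, g, e1, e3, e6, e8, e10.le, hcC, hgG, e7, hkap, ?_, hgk⟩
  rw [← hκ]
  exact_mod_cast hκK

end Pool.Agent.Lib.XE
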