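import Pool.Agent.Lib.XE.Defs

/-!
ASG (row 3, 70 lines). Words: `m = k^2+1`. `gcd (k, m) = 1` and `k` divides `phi m`, and `phi m` divides
`m^n * prod_{q | m} (q-1)` (indeed `phi m * prod q = m * prod (q-1)`, `Nat.totient_mul_prod_primeFactors`), so `k` divides
`prod_{q | m} (q-1)`. A divisor of a finite product `prod a_i` is a product of divisors `h_i` of the `a_i` (induction over the
finset with `exists_dvd_and_dvd_of_dvd_mul`).
-/

namespace Pool.Agent.Lib.XE

private theorem asg_split (a : ℕ → ℕ) (s : Finset ℕ) : ∀ k : ℕ, k ∣ ∏ q ∈ s, a q →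
    ∃ h : ℕ → ℕ, (∀ q ∈ s, h q ∣ a q) ∧ ∏ q ∈ s, h q = k := by
  classical
  induction s using Finset.induction_on with
  | empty =>
    intro k hk
    rw [Finset.prod_empty] at hk
    refine ⟨fun _ => 1, fun q hq => absurd hq (Finset.notMem_empty q), ?_⟩
    rw [Finset.prod_empty]
    exact (Nat.dvd_one.1 hk).symm
  | insert q s hq ih =>
    intro k hk
    rw [Finset.prod_insert hq] at hk
    obtain ⟨d₁, d₂, h1, h2, h3⟩ := exists_dvd_and_dvd_of_dvd_mul hk
    obtain ⟨h, hh1, hh2⟩ := ih d₂ h2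
    refine ⟨Function.update h q d₁, ?_, ?_⟩
    · intro r hr
      by_cases hrq : r = q
      · rw [hrq, Function.update_self]
        exact h1
      · rw [Function.update_of_ne hrq]
        exact hh1 r (Finset.mem_of_mem_insert_of_ne hr hrq)
    · rw [Finset.prod_insert hq, Function.update_self, h3, ← hh2]
      congr 1
      refine Finset.prod_congr rfl fun r hr => ?_
      rw [Function.update_of_ne]
      rintro rfl
      exact hq hr

theorem assign {k : ℕ} (hk : 1 ≤ k) (h : k ∣ Nat.totient (k ^ 2 + 1)) :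
    ∃ h : ℕ → ℕ, (∀ q ∈ (k ^ 2 + 1).primeFactors, h q ∣ q - 1) ∧ ∏ q ∈ (k ^ 2 + 1).primeFactors, h q = k := by
  have hc : Nat.Coprime k (k ^ 2 + 1) := by
    have h1 := Nat.gcd_dvd_left k (k ^ 2 + 1)
    have h2 := Nat.gcd_dvd_right k (k ^ 2 + 1)
    exact Nat.dvd_one.1 ((Nat.dvd_add_right (h1.trans (dvd_pow_self k two_ne_zero))).1 h2)
  have h1 := Nat.totient_mul_prod_primeFactors (k ^ 2 + 1)
  have h2 : k ∣ (k ^ 2 + 1) * ∏ p ∈ (k ^ 2 + 1).primeFactors, (p - 1) := by
    rw [← h1]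
    exact h.mul_right _
  exact asg_split (fun q => q - 1) _ k (hc.dvd_of_dvd_mul_left h2)

end Pool.Agent.Lib.XE
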