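import Pool.Agent.Lib.XE.Defs

/-!
B1 (row 4, 130 lines). Words: a number `e >= 1` all of whose prime factors are `<= y` is `s * n^2` with `s` squarefree, a product
of different primes `<= y` (`Nat.sq_mul_squarefree`): at most `2^y` values of `s` (subsets of `{1..y}`). For given `e` at most
`2X/e` of the `k` in `(X, 2X]` are multiples of `e` (0 if `e > 2X`). For given `s` the `n` satisfy `n >= 1` and `s n^2 >= z`, and
`sum over n >= n0 of 1/n^2 <= 2/n0`, so `sum over these n of 2X/(s n^2) <= (2X/s) * 2/max(1, sqrt(z/s)) <= 4X/sqrt(s z) <= 4X/sqrt z`.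
Sum over `s`: `4 X 2^y / sqrt z`.
-/

namespace Pool.Agent.Lib.XE

private theorem sum_sq (m : ℕ) (hm : 1 ≤ m) (j : ℕ) :
    ∑ n ∈ Finset.Ico m (m + j), (1 : ℝ) / (n : ℝ) ^ 2 ≤ 2 / m - 2 / ((m + j : ℕ) : ℝ) := by
  induction j with
  | zero => simp
  | succ j ih =>
    rw [← add_assoc, Finset.sum_Ico_succ_top (by omega)]
    have hp : (1 : ℝ) ≤ ((m + j : ℕ) : ℝ) := by
      exact_mod_cast (by omega : 1 ≤ m + j)
    have h1 : (1 : ℝ) / ((m + j : ℕ) : ℝ) ^ 2 ≤ 2 / ((m + j : ℕ) : ℝ) - 2 / ((m + j + 1 : ℕ) : ℝ) := by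
      have h2 : ((m + j + 1 : ℕ) : ℝ) = ((m + j : ℕ) : ℝ) + 1 := by push_cast; ring
      rw [h2]
      set q : ℝ := ((m + j : ℕ) : ℝ)
      have hq : 0 < q := by linarith
      rw [div_sub_div _ _ hq.ne' (by linarith), div_le_div_iff₀ (by positivity) (by positivity)]
      nlinarith
    linarith

open Classical in
private noncomputable def Ks (X z s : ℕ) : Finset ℕ :=
  (Finset.Ioc X (2 * X)).filter fun k => ∃ n : ℕ, 1 ≤ n ∧ s * n ^ 2 ∣ k ∧ z ≤ s * n ^ 2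

private theorem card_Ks (X z s : ℕ) (hz : 1 ≤ z) (hs : 1 ≤ s) :
    ((Ks X z s).card : ℝ) ≤ 4 * X / Real.sqrt z := by
  classical
  have hz0 : (0 : ℝ) < z := by exact_mod_cast hz
  have hs0 : (0 : ℝ) < s := by exact_mod_cast hs
  have hs1 : (1 : ℝ) ≤ s := by exact_mod_cast hs
  set r : ℝ := Real.sqrt ((z : ℝ) / s) with hr
  have hr0 : 0 < r := Real.sqrt_pos.2 (by positivity)
  set n0 : ℕ := ⌈r⌉₊ with hn0
  have hn01 : 1 ≤ n0 := Nat.one_le_iff_ne_zero.2 (by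
    rw [hn0]
    exact (Nat.ceil_pos.2 hr0).ne')
  have hsub : Ks X z s ⊆ (Finset.Ico n0 (n0 + (2 * X + 1))).biUnion fun n =>
      (Finset.Ioc 0 (2 * X)).filter fun k => s * n ^ 2 ∣ k := by
    intro k hk
    rw [Ks, Finset.mem_filter, Finset.mem_Ioc] at hk
    obtain ⟨⟨hk1, hk2⟩, n, hn1, hdvd, hzle⟩ := hk
    rw [Finset.mem_biUnion]
    refine ⟨n, ?_, ?_⟩
    · rw [Finset.mem_Ico]
      constructor
      · rw [hn0]
        apply Nat.ceil_le.2
        rw [hr]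
        apply Real.sqrt_le_iff.2
        refine ⟨by positivity, ?_⟩
        rw [div_le_iff₀ hs0]
        have h1 : (z : ℝ) ≤ ((s * n ^ 2 : ℕ) : ℝ) := by exact_mod_cast hzle
        push_cast at h1
        linarith
      · have h1 : s * n ^ 2 ≤ k := Nat.le_of_dvd (by omega) hdvd
        have h2 : n ≤ s * n ^ 2 := by
          calc n = 1 * n := (one_mul n).symm
            _ ≤ s * n ^ 2 := Nat.mul_le_mul hs (by nlinarith)
        omega
    · rw [Finset.mem_filter, Finset.mem_Ioc]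
      exact ⟨⟨by omega, hk2⟩, hdvd⟩
  have h1 : ((Ks X z s).card : ℝ) ≤ ∑ n ∈ Finset.Ico n0 (n0 + (2 * X + 1)), (2 * X : ℝ) / (s * (n : ℝ) ^ 2) := by
    have h2 : (Ks X z s).card ≤ ∑ n ∈ Finset.Ico n0 (n0 + (2 * X + 1)), (2 * X) / (s * n ^ 2) := by
      refine (Finset.card_le_card hsub).trans (Finset.card_biUnion_le.trans ?_)
      refine Finset.sum_le_sum fun n _ => ?_
      rw [Nat.Ioc_filter_dvd_card_eq_div]
    calc ((Ks X z s).card : ℝ) ≤ ((∑ n ∈ Finset.Ico n0 (n0 + (2 * X + 1)), (2 * X) / (s * n ^ 2) : ℕ) : ℝ) := by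
          exact_mod_cast h2
      _ = ∑ n ∈ Finset.Ico n0 (n0 + (2 * X + 1)), (((2 * X) / (s * n ^ 2) : ℕ) : ℝ) := by push_cast; rfl
      _ ≤ _ := by
          refine Finset.sum_le_sum fun n _ => ?_
          have h3 := @Nat.cast_div_le ℝ _ _ _ (2 * X) (s * n ^ 2)
          push_cast at h3 ⊢
          exact h3
  have h2 : ∑ n ∈ Finset.Ico n0 (n0 + (2 * X + 1)), (2 * X : ℝ) / (s * (n : ℝ) ^ 2)
      = (2 * X / s) * ∑ n ∈ Finset.Ico n0 (n0 + (2 * X + 1)), (1 : ℝ) / (n : ℝ) ^ 2 := by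
    rw [Finset.mul_sum]
    refine Finset.sum_congr rfl fun n _ => ?_
    rw [div_mul_div_comm, mul_one]
  have h3 : ∑ n ∈ Finset.Ico n0 (n0 + (2 * X + 1)), (1 : ℝ) / (n : ℝ) ^ 2 ≤ 2 / r := by
    refine (sum_sq n0 hn01 _).trans ?_
    have h4 : (0 : ℝ) ≤ 2 / ((n0 + (2 * X + 1) : ℕ) : ℝ) := by positivity
    have h5 : (2 : ℝ) / n0 ≤ 2 / r := div_le_div_of_nonneg_left (by norm_num) hr0 (Nat.le_ceil r)
    linarith
  have h4 : (2 * X / s : ℝ) * (2 / r) = 4 * X / (Real.sqrt s * Real.sqrt z) := by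
    have h5 : r = Real.sqrt z / Real.sqrt s := by rw [hr, Real.sqrt_div hz0.le]
    have h6 : Real.sqrt s * Real.sqrt s = s := Real.mul_self_sqrt hs0.le
    have h7 : 0 < Real.sqrt s := Real.sqrt_pos.2 hs0
    have h8 : 0 < Real.sqrt z := Real.sqrt_pos.2 hz0
    rw [h5, ← h6]
    rw [Real.sqrt_mul_self h7.le]
    field_simp
    ring
  have h5 : (4 * X : ℝ) / (Real.sqrt s * Real.sqrt z) ≤ 4 * X / Real.sqrt z := by
    have h7 : 1 ≤ Real.sqrt s := Real.one_le_sqrt.2 hs1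
    have h8 : 0 < Real.sqrt z := Real.sqrt_pos.2 hz0
    apply div_le_div_of_nonneg_left (by positivity) h8
    nlinarith
  calc ((Ks X z s).card : ℝ) ≤ _ := h1
    _ = _ := h2
    _ ≤ (2 * X / s) * (2 / r) := mul_le_mul_of_nonneg_left h3 (by positivity)
    _ = _ := h4
    _ ≤ _ := h5

theorem bad1_card (X y z : ℕ) (hz : 1 ≤ z) :
    ((Bad1 X y z).card : ℝ) ≤ 8 * X * 2 ^ y / Real.sqrt z := by
  classical
  have hsub : Bad1 X y z ⊆ (Finset.Icc 1 y).powerset.biUnion fun T => Ks X z (∏ p ∈ T, p) := by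
    intro k hk
    rw [Bad1, Finset.mem_filter, Finset.mem_Ioc] at hk
    obtain ⟨⟨hk1, hk2⟩, e, hek, hze, hpr⟩ := hk
    obtain ⟨s, n, hsn, hsq⟩ := Nat.sq_mul_squarefree e
    have he0 : e ≠ 0 := by omega
    have hs0 : s ≠ 0 := hsq.ne_zero
    have hn0 : n ≠ 0 := by
      rintro rfl
      apply he0
      rw [← hsn]
      ring
    have hprod : ∏ p ∈ s.primeFactors, p = s := Nat.prod_primeFactors_of_squarefree hsq
    rw [Finset.mem_biUnion]
    refine ⟨s.primeFactors, ?_, ?_⟩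
    · rw [Finset.mem_powerset]
      intro p hp
      have hpp := Nat.prime_of_mem_primeFactors hp
      rw [Finset.mem_Icc]
      refine ⟨hpp.one_lt.le, hpr p hpp ?_⟩
      rw [← hsn]
      exact dvd_mul_of_dvd_right (Nat.dvd_of_mem_primeFactors hp) _
    · rw [hprod, Ks, Finset.mem_filter, Finset.mem_Ioc]
      refine ⟨⟨hk1, hk2⟩, n, by omega, ?_, ?_⟩
      · rw [mul_comm, hsn]
        exact hek
      · rw [mul_comm, hsn]
        exact hze
  have hz0 : (0 : ℝ) < z := by exact_mod_cast hz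
  have h8 : 0 < Real.sqrt z := Real.sqrt_pos.2 hz0
  have h1 : ((Bad1 X y z).card : ℝ) ≤ ∑ T ∈ (Finset.Icc 1 y).powerset, ((Ks X z (∏ p ∈ T, p)).card : ℝ) := by
    exact_mod_cast (Finset.card_le_card hsub).trans Finset.card_biUnion_le
  have h2 : ∑ T ∈ (Finset.Icc 1 y).powerset, ((Ks X z (∏ p ∈ T, p)).card : ℝ)
      ≤ ∑ _T ∈ (Finset.Icc 1 y).powerset, (4 * X / Real.sqrt z : ℝ) := by
    refine Finset.sum_le_sum fun T hT => ?_
    apply card_Ks X z _ hz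
    apply Nat.one_le_iff_ne_zero.2
    apply Finset.prod_ne_zero_iff.2
    intro p hp
    have := Finset.mem_Icc.1 (Finset.mem_powerset.1 hT hp)
    omega
  have h3 : ∑ _T ∈ (Finset.Icc 1 y).powerset, (4 * X / Real.sqrt z : ℝ) = 2 ^ y * (4 * X / Real.sqrt z) := by
    rw [Finset.sum_const, Finset.card_powerset, Nat.card_Icc, nsmul_eq_mul]
    push_cast
    simp
  have h4 : (2 : ℝ) ^ y * (4 * X / Real.sqrt z) ≤ 8 * X * 2 ^ y / Real.sqrt z := by
    have h5 : (0 : ℝ) ≤ 2 ^ y * (4 * X / Real.sqrt z) := by positivity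
    calc (2 : ℝ) ^ y * (4 * X / Real.sqrt z) ≤ 2 * (2 ^ y * (4 * X / Real.sqrt z)) := by linarith
      _ = 8 * X * 2 ^ y / Real.sqrt z := by ring
  linarith

end Pool.Agent.Lib.XE
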