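import Pool.Agent.Lib.XE.RhoB

/-!
B2A (row 7, 160 lines; uses `cnt_le`). `aq y q = sum over the divisors h > y of q-1 of 2 / (q * sqrt h)`.
Words: for `(Q, h)` as in `Bad2`, with `H = prod h q`, `P = prod q` (`P` is squarefree with `|Q|` prime factors):
`cnt_le` with `d = H`, `n = P`: at most `2^|Q| (X/(H P) + 1) <= 2^|Q| * 2X/(H P)` values of `k`, since `H P <= X`. As `H >= z`,
`1/H <= 1/(sqrt z sqrt H)`, so this is at most `(2X/sqrt z) * prod_{q in Q} 2/(q sqrt (h q))`. All `q <= P <= X` (`H >= 1`), `h q` is a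
divisor of `q-1`. The set `Bad2` is the union over `Q` (a set of primes `<= X`, i.e. `Q` in the powerset of the primes `<= X`) and
over `h` restricted to `Q` (`Finset.pi Q (fun q => (q-1).divisors.filter (y < .))`) of these sets of `k`; sum:
`(2X/sqrt z) * sum_Q prod_{q in Q} aq y q = (2X/sqrt z) * prod_{q <= X} (1 + aq y q)` (`Finset.prod_one_add`, `Finset.prod_sum`).
-/

namespace Pool.Agent.Lib.XE

/-- the sum over the divisors `h > y` of `q - 1` of `2 / (q sqrt h)` -/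
noncomputable def aq (y q : ℕ) : ℝ := ∑ h ∈ (q - 1).divisors.filter (fun h => y < h), 2 / ((q : ℝ) * Real.sqrt h)

private theorem b2_sqrt {ι : Type*} (s : Finset ι) (f : ι → ℕ) :
    Real.sqrt ((∏ i ∈ s, f i : ℕ) : ℝ) = ∏ i ∈ s, Real.sqrt (f i) := by
  classical
  induction s using Finset.induction_on with
  | empty => simp
  | insert a s ha ih =>
    rw [Finset.prod_insert ha, Finset.prod_insert ha, Nat.cast_mul,
      Real.sqrt_mul (Nat.cast_nonneg _), ih]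

private theorem b2_prod (Q : Finset ℕ) (p : (q : ℕ) → q ∈ Q → ℕ) :
    ∏ x ∈ Q.attach, 2 / ((x.1 : ℝ) * Real.sqrt (p x.1 x.2)) =
      2 ^ Q.card / (((∏ q ∈ Q, q : ℕ) : ℝ) *
        Real.sqrt ((∏ x ∈ Q.attach, p x.1 x.2 : ℕ) : ℝ)) := by
  rw [Finset.prod_div_distrib, Finset.prod_mul_distrib, Finset.prod_const, Finset.card_attach,
    b2_sqrt, Finset.prod_attach Q (fun q => (q : ℝ)), Nat.cast_prod]

private theorem b2_term (X z : ℕ) (hz : 1 ≤ z) (Q : Finset ℕ) (hQ : ∀ q ∈ Q, q.Prime)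
    (p : (q : ℕ) → q ∈ Q → ℕ) (hzH : z ≤ ∏ x ∈ Q.attach, p x.1 x.2)
    (hX : (∏ x ∈ Q.attach, p x.1 x.2) * ∏ q ∈ Q, q ≤ X) :
    ((2 ^ Q.card * (X / ((∏ x ∈ Q.attach, p x.1 x.2) * ∏ q ∈ Q, q) + 1) : ℕ) : ℝ) ≤
      2 * X / Real.sqrt z * ∏ x ∈ Q.attach, 2 / ((x.1 : ℝ) * Real.sqrt (p x.1 x.2)) := by
  rw [b2_prod]
  obtain ⟨H, hH⟩ : ∃ H : ℕ, H = ∏ x ∈ Q.attach, p x.1 x.2 := ⟨_, rfl⟩
  obtain ⟨P, hP⟩ : ∃ P : ℕ, P = ∏ q ∈ Q, q := ⟨_, rfl⟩
  have hP1 : 0 < P := by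
    rw [hP]
    exact Finset.prod_pos fun q hq => (hQ q hq).pos
  rw [← hH] at hzH
  rw [← hH, ← hP] at hX
  rw [← hH, ← hP]
  have hH1 : 0 < H := by omega
  have hHR : (0 : ℝ) < H := by exact_mod_cast hH1
  have hPR : (0 : ℝ) < P := by exact_mod_cast hP1
  have hzR : (0 : ℝ) < z := by exact_mod_cast hz
  have hsz : 0 < Real.sqrt z := Real.sqrt_pos.2 hzR
  have hsH : 0 < Real.sqrt H := Real.sqrt_pos.2 hHR
  have hle : Real.sqrt z ≤ Real.sqrt H := Real.sqrt_le_sqrt (by exact_mod_cast hzH)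
  have hXR : (H : ℝ) * P ≤ X := by exact_mod_cast hX
  have h1 : ((X / (H * P) : ℕ) : ℝ) ≤ X / (H * P) := by
    have := Nat.cast_div_le (α := ℝ) (m := X) (n := H * P)
    push_cast at this
    exact this
  have h2 : (1 : ℝ) ≤ X / (H * P) := by
    rw [le_div_iff₀ (by positivity)]
    linarith
  push_cast
  have h3 : (2 : ℝ) ^ Q.card * (((X / (H * P) : ℕ) : ℝ) + 1) ≤ 2 ^ Q.card * (2 * (X / (H * P))) := by
    gcongr
    linarith
  push_cast at h3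
  refine h3.trans ?_
  have hss : Real.sqrt H * Real.sqrt H = H := Real.mul_self_sqrt hHR.le
  have h4 : (2 : ℝ) ^ Q.card * (2 * (X / (H * P))) =
      2 * X * 2 ^ Q.card / (P * (Real.sqrt H * Real.sqrt H)) := by
    rw [hss]
    field_simp
  have h5 : 2 * (X : ℝ) / Real.sqrt z * (2 ^ Q.card / (P * Real.sqrt H)) =
      2 * X * 2 ^ Q.card / (P * (Real.sqrt z * Real.sqrt H)) := by
    field_simp
  rw [h4, h5]
  gcongr

theorem bad2_card_a (X y z : ℕ) (hX : 1 ≤ X) (hz : 1 ≤ z) :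
    ((Bad2 X y z).card : ℝ) ≤ 2 * X / Real.sqrt z *
      ∏ q ∈ (Finset.range (X + 1)).filter Nat.Prime, (1 + aq y q) := by
  classical
  obtain ⟨S, hS⟩ : ∃ S : Finset ℕ, S = (Finset.range (X + 1)).filter Nat.Prime := ⟨_, rfl⟩
  obtain ⟨D, hD⟩ : ∃ D : ℕ → Finset ℕ, D = fun q => (q - 1).divisors.filter (fun h => y < h) :=
    ⟨_, rfl⟩
  let J : Finset (Σ Q : Finset ℕ, ((q : ℕ) → q ∈ Q → ℕ)) := S.powerset.sigma fun Q => Q.pi D
  let H : (Σ Q : Finset ℕ, ((q : ℕ) → q ∈ Q → ℕ)) → ℕ := fun j => ∏ x ∈ j.1.attach, j.2 x.1 x.2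
  let P : (Σ Q : Finset ℕ, ((q : ℕ) → q ∈ Q → ℕ)) → ℕ := fun j => ∏ q ∈ j.1, q
  let J' := J.filter fun j => H j * P j ≤ X ∧ z ≤ H j
  let K : (Σ Q : Finset ℕ, ((q : ℕ) → q ∈ Q → ℕ)) → Finset ℕ := fun j =>
    (Finset.Ioc X (2 * X)).filter fun k => H j ∣ k ∧ P j ∣ k ^ 2 + 1
  have hSp : ∀ q ∈ S, q.Prime := fun q hq => by
    rw [hS] at hq
    exact (Finset.mem_filter.1 hq).2
  have hsub : Bad2 X y z ⊆ J'.biUnion K := by
    intro k hk
    unfold Bad2 at hk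
    rw [Finset.mem_filter] at hk
    obtain ⟨hk1, Q, h, hq, h1, h2, h3, h4⟩ := hk
    have hHe : (∏ x ∈ Q.attach, h x.1) = ∏ q ∈ Q, h q := Finset.prod_attach Q h
    have hPp : 0 < ∏ q ∈ Q, q := Finset.prod_pos fun q hq' => (hq q hq').1.pos
    rw [Finset.mem_biUnion]
    refine ⟨⟨Q, fun q _ => h q⟩, ?_, ?_⟩
    · refine Finset.mem_filter.2 ⟨Finset.mem_sigma.2 ⟨?_, ?_⟩, ?_, ?_⟩
      · rw [Finset.mem_powerset]
        intro q hq'
        rw [hS, Finset.mem_filter, Finset.mem_range]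
        refine ⟨?_, (hq q hq').1⟩
        have h5 : q ≤ ∏ q ∈ Q, q := Nat.le_of_dvd hPp (Finset.dvd_prod_of_mem (fun q => q) hq')
        have h6 : 1 * ∏ q ∈ Q, q ≤ (∏ q ∈ Q, h q) * ∏ q ∈ Q, q :=
          Nat.mul_le_mul_right _ (hz.trans h4)
        omega
      · rw [Finset.mem_pi]
        intro q hq'
        rw [hD]
        simp only [Finset.mem_filter, Nat.mem_divisors]
        have h5 := (hq q hq').1.two_le
        exact ⟨⟨(hq q hq').2.2, by omega⟩, (hq q hq').2.1⟩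
      · show (∏ x ∈ Q.attach, h x.1) * ∏ q ∈ Q, q ≤ X
        rw [hHe]
        exact h3
      · show z ≤ ∏ x ∈ Q.attach, h x.1
        rw [hHe]
        exact h4
    · refine Finset.mem_filter.2 ⟨hk1, ?_, h2⟩
      show (∏ x ∈ Q.attach, h x.1) ∣ k
      rw [hHe]
      exact h1
  have hcard : ∀ j ∈ J', ((K j).card : ℝ) ≤
      2 * X / Real.sqrt z * ∏ x ∈ j.1.attach, 2 / ((x.1 : ℝ) * Real.sqrt (j.2 x.1 x.2)) := by
    intro j hj
    obtain ⟨hj1, hj2, hj3⟩ := Finset.mem_filter.1 hj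
    obtain ⟨hj4, -⟩ := Finset.mem_sigma.1 hj1
    rw [Finset.mem_powerset] at hj4
    have hQ : ∀ q ∈ j.1, q.Prime := fun q hq => hSp q (hj4 hq)
    have hP1 : 1 ≤ P j := Finset.prod_pos fun q hq => (hQ q hq).pos
    have h1 := cnt_le X (H j) (P j) (hz.trans hj3) hP1
    have h2 : (P j).primeFactors = j.1 := Nat.primeFactors_prod hQ
    rw [h2] at h1
    have h3 : ((K j).card : ℝ) ≤ ((2 ^ j.1.card * (X / (H j * P j) + 1) : ℕ) : ℝ) := by
      exact_mod_cast h1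
    exact h3.trans (b2_term X z hz j.1 hQ j.2 hj3 hj2)
  have hnn : ∀ j ∈ J, 0 ≤
      2 * X / Real.sqrt z * ∏ x ∈ j.1.attach, 2 / ((x.1 : ℝ) * Real.sqrt (j.2 x.1 x.2)) := by
    intro j _
    refine mul_nonneg (by positivity) (Finset.prod_nonneg fun x _ => by positivity)
  have h1 : ((Bad2 X y z).card : ℝ) ≤ ∑ j ∈ J', ((K j).card : ℝ) := by
    have h2 := (Finset.card_le_card hsub).trans Finset.card_biUnion_le
    exact_mod_cast h2
  refine h1.trans ((Finset.sum_le_sum hcard).trans ((Finset.sum_le_sum_of_subset_of_nonneg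
    (Finset.filter_subset _ _) fun j hj _ => hnn j hj).trans (le_of_eq ?_)))
  rw [← Finset.mul_sum, ← hS, Finset.prod_one_add, Finset.sum_sigma]
  congr 1
  refine Finset.sum_congr rfl fun Q _ => ?_
  unfold aq
  rw [Finset.prod_sum]
  rw [hD]

end Pool.Agent.Lib.XE
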