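import Pool.Agent.Lib.XE.B2a

/-!
B2B (row 8, 120 lines). Words: `1 + a <= exp a`, so the product is at most `exp (sum of aq y q)`. Exchange the sums:
`sum_{q <= X} aq y q <= sum_{y < h <= X} (2/sqrt h) * sum of 1/q over q = 1 + h v <= X, v >= 1`, and
`1/q <= 1/(h v)`, `v <= X`, `sum_{v <= X} 1/v <= 1 + log X` (`harmonic_le_one_add_log`), so the inner sum is at most `(1 + log X)/h`.
`sum_{h > y} h^(-3/2) <= 2/sqrt y` (telescoping: `1/(h sqrt h) <= 2/sqrt (h-1) - 2/sqrt h` for `h >= 2`). Total: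
`4 (1 + log X)/sqrt y`.
-/

namespace Pool.Agent.Lib.XE

private theorem b2b_step (n : ℕ) (hn : 1 ≤ n) :
    1 / (((n + 1 : ℕ) : ℝ) * Real.sqrt ((n + 1 : ℕ) : ℝ)) ≤ 2 / Real.sqrt n - 2 / Real.sqrt ((n + 1 : ℕ) : ℝ) := by
  obtain ⟨a, ha⟩ : ∃ a, a = Real.sqrt n := ⟨_, rfl⟩
  obtain ⟨b, hb⟩ : ∃ b, b = Real.sqrt ((n + 1 : ℕ) : ℝ) := ⟨_, rfl⟩
  have hn0 : (0 : ℝ) < n := by exact_mod_cast hn
  have ha0 : 0 < a := by rw [ha]; exact Real.sqrt_pos.2 hn0
  have hb0 : 0 < b := by rw [hb]; exact Real.sqrt_pos.2 (by positivity)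
  have ha2 : a ^ 2 = n := by rw [ha]; exact Real.sq_sqrt hn0.le
  have hb2 : b ^ 2 = ((n + 1 : ℕ) : ℝ) := by rw [hb]; exact Real.sq_sqrt (by positivity)
  have hab : a ≤ b := by
    rw [ha, hb]
    exact Real.sqrt_le_sqrt (by push_cast; linarith)
  have h1 : (b - a) * (b + a) = 1 := by
    have h2 : b ^ 2 - a ^ 2 = 1 := by
      rw [ha2, hb2]
      push_cast
      ring
    linarith [h2, show (b - a) * (b + a) = b ^ 2 - a ^ 2 by ring]
  rw [← ha, ← hb, ← hb2]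
  have h3 : 2 / a - 2 / b - 1 / (b ^ 2 * b) = (2 * (b - a) * b ^ 2 - a) / (a * b ^ 3) := by
    field_simp
  have h4 : 0 ≤ 2 * (b - a) * b ^ 2 - a := by
    have h5 : a = (b - a) * (a * (b + a)) := by
      calc a = a * ((b - a) * (b + a)) := by rw [h1, mul_one]
        _ = (b - a) * (a * (b + a)) := by ring
    have h6 : (b - a) * (a * (b + a)) ≤ (b - a) * (2 * b ^ 2) :=
      mul_le_mul_of_nonneg_left (by nlinarith) (by linarith)
    linarith
  have h7 : 0 ≤ 2 / a - 2 / b - 1 / (b ^ 2 * b) := by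
    rw [h3]
    positivity
  linarith

private theorem b2b_tail (y : ℕ) (hy : 1 ≤ y) (X : ℕ) (hX : y ≤ X) :
    ∑ h ∈ Finset.Ioc y X, 1 / ((h : ℝ) * Real.sqrt h) ≤ 2 / Real.sqrt y - 2 / Real.sqrt X := by
  induction X, hX using Nat.le_induction with
  | base => simp
  | succ n hn ih =>
    rw [Finset.sum_Ioc_succ_top hn]
    linarith [b2b_step n (hy.trans hn)]

private theorem b2b_tail' (y : ℕ) (hy : 1 ≤ y) (X : ℕ) :
    ∑ h ∈ Finset.Ioc y X, 1 / ((h : ℝ) * Real.sqrt h) ≤ 2 / Real.sqrt y := by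
  rcases le_total y X with h | h
  · have h1 := b2b_tail y hy X h
    have h2 : 0 ≤ 2 / Real.sqrt X := by positivity
    linarith
  · rw [Finset.Ioc_eq_empty (by omega), Finset.sum_empty]
    positivity

private theorem b2b_harm (X : ℕ) : ∑ v ∈ Finset.Icc 1 X, 1 / (v : ℝ) ≤ 1 + Real.log X := by
  have h1 := harmonic_le_one_add_log X
  rw [harmonic_eq_sum_Icc] at h1
  push_cast at h1
  simpa [one_div] using h1

private theorem b2b_sum (X y : ℕ) (hX : 1 ≤ X) (hy : 1 ≤ y) :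
    ∑ q ∈ (Finset.range (X + 1)).filter Nat.Prime, aq y q ≤ 4 * (1 + Real.log X) / Real.sqrt y := by
  have hlog : 0 ≤ Real.log X := Real.log_nonneg (by exact_mod_cast hX)
  obtain ⟨s, hs⟩ : ∃ s : Finset ((_ : ℕ) × ℕ), s = ((Finset.range (X + 1)).filter Nat.Prime).sigma
      (fun q => (q - 1).divisors.filter (fun h => y < h)) := ⟨_, rfl⟩
  have hmem : ∀ p ∈ s, Nat.Prime p.1 ∧ p.1 ≤ X ∧ p.2 ∣ p.1 - 1 ∧ y < p.2 := by
    intro p hp
    rw [hs, Finset.mem_sigma, Finset.mem_filter, Finset.mem_filter, Finset.mem_range, Nat.mem_divisors] at hp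
    exact ⟨hp.1.2, by omega, hp.2.1.1, hp.2.2⟩
  obtain ⟨f, hf⟩ : ∃ f : ℕ × ℕ → ℝ, f = fun x => 2 / ((x.1 : ℝ) * Real.sqrt x.1) * (1 / (x.2 : ℝ)) := ⟨_, rfl⟩
  have hf0 : ∀ x, 0 ≤ f x := by
    intro x
    rw [hf]
    positivity
  have hinj : Set.InjOn (fun p : (_ : ℕ) × ℕ => (p.2, (p.1 - 1) / p.2)) s := by
    rintro ⟨q, h⟩ hp ⟨q', h'⟩ hp' he
    obtain ⟨h1, h2, h3, h4⟩ := hmem _ hp
    obtain ⟨h1', h2', h3', h4'⟩ := hmem _ hp'
    simp only [Prod.mk.injEq] at he h1 h2 h3 h4 h1' h2' h3' h4'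
    obtain ⟨e1, e2⟩ := he
    subst e1
    have e3 := Nat.mul_div_cancel' h3
    have e4 := Nat.mul_div_cancel' h3'
    rw [e2, e4] at e3
    have e5 := h1.one_lt
    have e6 := h1'.one_lt
    have e7 : q = q' := by omega
    rw [e7]
  have hle : ∀ p ∈ s, 2 / ((p.1 : ℝ) * Real.sqrt p.2) ≤ f (p.2, (p.1 - 1) / p.2) := by
    rintro ⟨q, h⟩ hp
    obtain ⟨h1, h2, h3, h4⟩ := hmem _ hp
    simp only at h1 h2 h3 h4 ⊢
    have e3 := Nat.mul_div_cancel' h3
    obtain ⟨v, hv⟩ : ∃ v, v = (q - 1) / h := ⟨_, rfl⟩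
    rw [← hv] at e3
    have e5 := h1.one_lt
    have hv0 : 1 ≤ v := by
      rcases Nat.eq_zero_or_pos v with h0 | h0
      · rw [h0] at e3
        omega
      · exact h0
    rw [hf, ← hv]
    simp only
    have hh0 : (0 : ℝ) < h := by
      have : 0 < h := by omega
      exact_mod_cast this
    have hv1 : (0 : ℝ) < v := by exact_mod_cast hv0
    have hsq : 0 < Real.sqrt h := Real.sqrt_pos.2 hh0
    have hq : (h : ℝ) * v ≤ q := by
      have : h * v ≤ q := by omega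
      exact_mod_cast this
    rw [div_mul_div_comm, mul_one]
    refine div_le_div_of_nonneg_left (by norm_num) (by positivity) ?_
    calc (h : ℝ) * Real.sqrt h * v = (h * v) * Real.sqrt h := by ring
      _ ≤ q * Real.sqrt h := mul_le_mul_of_nonneg_right hq hsq.le
  have himg : s.image (fun p => (p.2, (p.1 - 1) / p.2)) ⊆ Finset.Ioc y X ×ˢ Finset.Icc 1 X := by
    intro x hx
    rw [Finset.mem_image] at hx
    obtain ⟨⟨q, h⟩, hp, rfl⟩ := hx
    obtain ⟨h1, h2, h3, h4⟩ := hmem _ hp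
    simp only at h1 h2 h3 h4 ⊢
    have e3 := Nat.mul_div_cancel' h3
    obtain ⟨v, hv⟩ : ∃ v, v = (q - 1) / h := ⟨_, rfl⟩
    rw [← hv] at e3 ⊢
    have e5 := h1.one_lt
    have hv0 : 1 ≤ v := by
      rcases Nat.eq_zero_or_pos v with h0 | h0
      · rw [h0] at e3
        omega
      · exact h0
    have hh0 : 1 ≤ h := by omega
    have e6 : h ≤ h * v := Nat.le_mul_of_pos_right h hv0
    have e7 : v ≤ h * v := Nat.le_mul_of_pos_left v hh0
    rw [Finset.mem_product, Finset.mem_Ioc, Finset.mem_Icc]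
    exact ⟨⟨h4, by omega⟩, hv0, by omega⟩
  calc ∑ q ∈ (Finset.range (X + 1)).filter Nat.Prime, aq y q
      = ∑ p ∈ s, 2 / ((p.1 : ℝ) * Real.sqrt p.2) := by
        rw [hs, Finset.sum_sigma]
        rfl
    _ ≤ ∑ p ∈ s, f (p.2, (p.1 - 1) / p.2) := Finset.sum_le_sum hle
    _ = ∑ x ∈ s.image (fun p => (p.2, (p.1 - 1) / p.2)), f x := (Finset.sum_image hinj).symm
    _ ≤ ∑ x ∈ Finset.Ioc y X ×ˢ Finset.Icc 1 X, f x :=
        Finset.sum_le_sum_of_subset_of_nonneg himg fun x _ _ => hf0 x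
    _ = (2 * ∑ h ∈ Finset.Ioc y X, 1 / ((h : ℝ) * Real.sqrt h)) * ∑ v ∈ Finset.Icc 1 X, 1 / (v : ℝ) := by
        have e1 : 2 * ∑ h ∈ Finset.Ioc y X, 1 / ((h : ℝ) * Real.sqrt h) =
            ∑ h ∈ Finset.Ioc y X, 2 * (1 / ((h : ℝ) * Real.sqrt h)) := Finset.mul_sum _ _ _
        rw [e1, Finset.sum_mul_sum, Finset.sum_product, hf]
        refine Finset.sum_congr rfl fun h _ => Finset.sum_congr rfl fun v _ => ?_
        simp only
        ring
    _ ≤ (2 * (2 / Real.sqrt y)) * (1 + Real.log X) := by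
        have h1 := b2b_tail' y hy X
        have h2 := b2b_harm X
        have h3 : 0 ≤ ∑ v ∈ Finset.Icc 1 X, 1 / (v : ℝ) := Finset.sum_nonneg fun v _ => by positivity
        exact mul_le_mul (by linarith) h2 h3 (by positivity)
    _ = 4 * (1 + Real.log X) / Real.sqrt y := by ring

theorem prod_aq_le (X y : ℕ) (hX : 1 ≤ X) (hy : 1 ≤ y) :
    ∏ q ∈ (Finset.range (X + 1)).filter Nat.Prime, (1 + aq y q) ≤
      Real.exp (4 * (1 + Real.log X) / Real.sqrt y) := by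
  have haq : ∀ q, 0 ≤ aq y q := fun q => Finset.sum_nonneg fun h _ => by positivity
  calc ∏ q ∈ (Finset.range (X + 1)).filter Nat.Prime, (1 + aq y q)
      ≤ ∏ q ∈ (Finset.range (X + 1)).filter Nat.Prime, Real.exp (aq y q) := by
        refine Finset.prod_le_prod (fun q _ => by have := haq q; positivity) fun q _ => ?_
        have := Real.add_one_le_exp (aq y q)
        linarith
    _ = Real.exp (∑ q ∈ (Finset.range (X + 1)).filter Nat.Prime, aq y q) := (Real.exp_sum _ _).symm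
    _ ≤ Real.exp (4 * (1 + Real.log X) / Real.sqrt y) := Real.exp_le_exp.2 (b2b_sum X y hX hy)

theorem bad2_card (X y z : ℕ) (hX : 1 ≤ X) (hy : 1 ≤ y) (hz : 1 ≤ z) :
    ((Bad2 X y z).card : ℝ) ≤ 2 * X / Real.sqrt z * Real.exp (4 * (1 + Real.log X) / Real.sqrt y) :=
  (bad2_card_a X y z hX hz).trans (mul_le_mul_of_nonneg_left (prod_aq_le X y hX hy) (by positivity))

end Pool.Agent.Lib.XE
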