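import Pool.Agent.Lib.XE.RhoB

/-!
B3 (row 9, 130 lines; uses `cnt_le`). Words: `Bad3` is contained in the union over the pairs `(d, t)` with `d >= L`, `t >= 1`,
`1 + d t <= N` of `{k in (X, 2X] : d | k, (1+dt) | k^2+1}`, which has at most `2^omega(1+dt) (X/(d(1+dt)) + 1) <= T (X/(d^2 t) + 1)`
elements. Sum: `sum_{d >= L} sum_{t <= N} X/(d^2 t) <= X (1 + log N) * sum_{d >= L} 1/d^2 <= 2 X (1 + log N)/L`
(`sum_{d >= L} 1/d^2 <= 2/L` for `L >= 1`), and the number of the pairs is at most `sum_{d <= N} N/d <= N (1 + log N)`.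
-/

namespace Pool.Agent.Lib.XE

private theorem b3_harm (N : ℕ) : ∑ t ∈ Finset.Icc 1 N, ((t : ℝ))⁻¹ ≤ 1 + Real.log N := by
  have h := harmonic_le_one_add_log N
  rw [harmonic_eq_sum_Icc] at h
  push_cast at h
  exact h

private theorem b3_sq (L N : ℕ) (hL : 1 ≤ L) : ∑ d ∈ Finset.Icc L N, ((d : ℝ) ^ 2)⁻¹ ≤ 2 / L := by
  have hL0 : (1 : ℝ) ≤ L := by exact_mod_cast hL
  rcases Nat.lt_or_ge N L with h | h
  · rw [Finset.Icc_eq_empty (by omega), Finset.sum_empty]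
    positivity
  · rw [← Finset.sum_Ioc_add_eq_sum_Icc h]
    have h1 : ∑ i ∈ Finset.Ioc L N, ((i : ℝ) ^ 2)⁻¹ ≤ (L : ℝ)⁻¹ - (N : ℝ)⁻¹ :=
      sum_Ioc_inv_sq_le_sub (by omega) h
    have h2 : ((L : ℝ) ^ 2)⁻¹ ≤ (L : ℝ)⁻¹ := by
      refine inv_anti₀ (by positivity) ?_
      nlinarith
    have h3 : (0 : ℝ) ≤ (N : ℝ)⁻¹ := by positivity
    have h4 : (2 : ℝ) / L = (L : ℝ)⁻¹ + (L : ℝ)⁻¹ := by
      field_simp
      norm_num
    linarith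

theorem bad3_card (X L N : ℕ) (hL : 1 ≤ L) (hN : 1 ≤ N) (T : ℝ)
    (hT : ∀ n : ℕ, 1 ≤ n → n ≤ N → (2 : ℝ) ^ n.primeFactors.card ≤ T) :
    ((Bad3 X L N).card : ℝ) ≤ T * (1 + Real.log N) * (2 * X / L + N) := by
  classical
  have hT0 : 0 ≤ T := (by positivity : (0 : ℝ) ≤ 2 ^ (1 : ℕ).primeFactors.card).trans (hT 1 le_rfl hN)
  set P : Finset (ℕ × ℕ) := (Finset.Icc L N ×ˢ Finset.Icc 1 N).filter fun p => 1 + p.1 * p.2 ≤ N with hP
  have hsub : Bad3 X L N ⊆ P.biUnion fun p =>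
      (Finset.Ioc X (2 * X)).filter fun k => p.1 ∣ k ∧ (1 + p.1 * p.2) ∣ k ^ 2 + 1 := by
    intro k hk
    rw [Bad3, Finset.mem_filter] at hk
    obtain ⟨hk1, d, t, hd, hdk, ht, hdt, hk2⟩ := hk
    rw [Finset.mem_biUnion]
    refine ⟨(d, t), ?_, Finset.mem_filter.mpr ⟨hk1, hdk, hk2⟩⟩
    rw [hP, Finset.mem_filter, Finset.mem_product, Finset.mem_Icc, Finset.mem_Icc]
    refine ⟨⟨⟨hd, ?_⟩, ht, ?_⟩, hdt⟩
    · show d ≤ N
      nlinarith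
    · show t ≤ N
      nlinarith
  have hmem : ∀ p ∈ P, 1 ≤ p.1 ∧ 1 ≤ p.2 ∧ 1 + p.1 * p.2 ≤ N := by
    intro p hp
    rw [hP, Finset.mem_filter, Finset.mem_product, Finset.mem_Icc, Finset.mem_Icc] at hp
    exact ⟨hL.trans hp.1.1.1, hp.1.2.1, hp.2⟩
  have h1 : ((Bad3 X L N).card : ℝ) ≤ ∑ p ∈ P, T * (X * (((p.1 : ℝ) ^ 2)⁻¹ * ((p.2 : ℝ))⁻¹) + 1) := by
    have h2 : (Bad3 X L N).card ≤ ∑ p ∈ P, 2 ^ (1 + p.1 * p.2).primeFactors.card * (X / (p.1 * (1 + p.1 * p.2)) + 1) := by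
      refine (Finset.card_le_card hsub).trans (Finset.card_biUnion_le.trans ?_)
      refine Finset.sum_le_sum fun p hp => ?_
      exact cnt_le X p.1 (1 + p.1 * p.2) (hmem p hp).1 (by omega)
    have h3 : ((Bad3 X L N).card : ℝ) ≤
        ((∑ p ∈ P, 2 ^ (1 + p.1 * p.2).primeFactors.card * (X / (p.1 * (1 + p.1 * p.2)) + 1) : ℕ) : ℝ) := by
      exact_mod_cast h2
    refine h3.trans ?_
    push_cast
    refine Finset.sum_le_sum fun p hp => ?_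
    obtain ⟨hp1, hp2, hp3⟩ := hmem p hp
    have hp1' : (1 : ℝ) ≤ p.1 := by exact_mod_cast hp1
    have hp2' : (1 : ℝ) ≤ p.2 := by exact_mod_cast hp2
    have h4 : ((X / (p.1 * (1 + p.1 * p.2)) : ℕ) : ℝ) ≤ X * (((p.1 : ℝ) ^ 2)⁻¹ * ((p.2 : ℝ))⁻¹) := by
      refine Nat.cast_div_le.trans ?_
      push_cast
      rw [div_eq_mul_inv, ← mul_inv]
      refine mul_le_mul_of_nonneg_left ?_ (Nat.cast_nonneg X)
      refine inv_anti₀ (by positivity) ?_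
      nlinarith
    refine mul_le_mul (hT _ (by omega) hp3) (by linarith) (by positivity) hT0
  have hlog : ∑ t ∈ Finset.Icc 1 N, ((t : ℝ))⁻¹ ≤ 1 + Real.log N := b3_harm N
  have hlog0 : (0 : ℝ) ≤ ∑ t ∈ Finset.Icc 1 N, ((t : ℝ))⁻¹ := Finset.sum_nonneg fun t _ => by positivity
  have h5 : ∑ p ∈ P, ((p.1 : ℝ) ^ 2)⁻¹ * ((p.2 : ℝ))⁻¹ ≤ 2 / L * (1 + Real.log N) := by
    calc ∑ p ∈ P, ((p.1 : ℝ) ^ 2)⁻¹ * ((p.2 : ℝ))⁻¹
        ≤ ∑ p ∈ Finset.Icc L N ×ˢ Finset.Icc 1 N, ((p.1 : ℝ) ^ 2)⁻¹ * ((p.2 : ℝ))⁻¹ :=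
          Finset.sum_le_sum_of_subset_of_nonneg (Finset.filter_subset _ _) fun p _ _ => by positivity
      _ = (∑ d ∈ Finset.Icc L N, ((d : ℝ) ^ 2)⁻¹) * ∑ t ∈ Finset.Icc 1 N, ((t : ℝ))⁻¹ := by
          rw [Finset.sum_product, Finset.sum_mul_sum]
      _ ≤ 2 / L * (1 + Real.log N) := by
          refine mul_le_mul (b3_sq L N hL) hlog hlog0 (by positivity)
  have h6 : (P.card : ℝ) ≤ N * (1 + Real.log N) := by
    have h7 : P.card ≤ ∑ d ∈ Finset.Icc 1 N, N / d := by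
      have h8 : P ⊆ (Finset.Icc 1 N).biUnion fun d => (Finset.Icc 1 (N / d)).image fun t => (d, t) := by
        intro p hp
        obtain ⟨hp1, hp2, hp3⟩ := hmem p hp
        rw [Finset.mem_biUnion]
        refine ⟨p.1, Finset.mem_Icc.mpr ⟨hp1, by nlinarith⟩, ?_⟩
        rw [Finset.mem_image]
        refine ⟨p.2, Finset.mem_Icc.mpr ⟨hp2, ?_⟩, rfl⟩
        rw [Nat.le_div_iff_mul_le (by omega)]
        have := mul_comm p.1 p.2
        omega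
      refine (Finset.card_le_card h8).trans (Finset.card_biUnion_le.trans ?_)
      refine Finset.sum_le_sum fun d _ => ?_
      refine Finset.card_image_le.trans ?_
      simp
    have h9 : (P.card : ℝ) ≤ ((∑ d ∈ Finset.Icc 1 N, N / d : ℕ) : ℝ) := by exact_mod_cast h7
    refine h9.trans ?_
    push_cast
    calc ∑ d ∈ Finset.Icc 1 N, ((N / d : ℕ) : ℝ) ≤ ∑ d ∈ Finset.Icc 1 N, (N : ℝ) * ((d : ℝ))⁻¹ := by
          refine Finset.sum_le_sum fun d _ => ?_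
          rw [← div_eq_mul_inv]
          exact Nat.cast_div_le
      _ = N * ∑ d ∈ Finset.Icc 1 N, ((d : ℝ))⁻¹ := by rw [Finset.mul_sum]
      _ ≤ N * (1 + Real.log N) := mul_le_mul_of_nonneg_left hlog (Nat.cast_nonneg N)
  refine h1.trans ?_
  rw [← Finset.mul_sum, Finset.sum_add_distrib, ← Finset.mul_sum, Finset.sum_const, nsmul_eq_mul, mul_one]
  have h10 : (X : ℝ) * ∑ p ∈ P, ((p.1 : ℝ) ^ 2)⁻¹ * ((p.2 : ℝ))⁻¹ ≤ X * (2 / L * (1 + Real.log N)) :=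
    mul_le_mul_of_nonneg_left h5 (Nat.cast_nonneg X)
  have e : T * (1 + Real.log N) * (2 * X / L + N) = T * (X * (2 / L * (1 + Real.log N)) + N * (1 + Real.log N)) := by
    ring
  rw [e]
  exact mul_le_mul_of_nonneg_left (by linarith) hT0

end Pool.Agent.Lib.XE
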