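import Pool.Agent.Lib.XE.Viet

/-!
B4 (row 10, 120 lines; uses `vieta`). Words: for `k` in `Bad4` apply `vieta` with `n' = 1 + d u` (`d >= D >= 1`): `t + u = d w`,
`t u + w = j^2`. Let `v = min (t, u)`, so `1 <= v <= j` (`v^2 <= t u < j^2`) and `j^2 + v^2 = w (v d + 1)`. `j <= J = 2X/D` (natural
division), since `D j <= d j = k <= 2X`, and `j >= 1`. The map `k -> (j, v, w)` is injective: `d = ((j^2+v^2)/w - 1)/v`, `k = d j`, and
`w` is a divisor of `j^2 + v^2 <= 8 X^2` (as `j, v <= 2X`). So `Bad4` has at most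
`sum over j, v in [1, J] of (number of divisors of j^2+v^2) <= J^2 T`.
-/

namespace Pool.Agent.Lib.XE

private theorem bad4_mem {X D k : ℕ} (hD : 1 ≤ D) (hk : k ∈ Bad4 X D) :
    ∃ j v w : ℕ, j ∈ Finset.Icc 1 (2 * X / D) ∧ v ∈ Finset.Icc 1 (2 * X / D) ∧
      w ∈ (j ^ 2 + v ^ 2).divisors ∧ (((j ^ 2 + v ^ 2) / w - 1) / v) * j = k := by
  simp only [Bad4, Finset.mem_filter, Finset.mem_Ioc] at hk
  obtain ⟨⟨hX1, hX2⟩, d, j, t, u, hkj, hDd, ht, hu, hm⟩ := hk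
  have hd : 1 ≤ d := le_trans hD hDd
  have hk1 : 1 ≤ k := by omega
  have hn' : 1 < 1 + d * u := by
    have : 1 ≤ d * u := Nat.one_le_iff_ne_zero.mpr (Nat.mul_ne_zero (by omega) (by omega))
    omega
  obtain ⟨u', w, hu', hw, hnu, htu, htuw, h1, h2, h3⟩ := vieta hk1 hkj ht hn' hm
  have huu : u' = u := by
    have h : d * u' = d * u := by omega
    exact Nat.eq_of_mul_eq_mul_left (by omega) h
  subst huu
  have hj1 : 1 ≤ j := by
    rcases Nat.eq_zero_or_pos j with h | h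
    · subst h; simp at hkj; omega
    · exact h
  have hjJ : j ≤ 2 * X / D := by
    rw [Nat.le_div_iff_mul_le (by omega)]
    calc j * D ≤ j * d := Nat.mul_le_mul_left _ hDd
      _ = k := by rw [hkj, mul_comm]
      _ ≤ 2 * X := hX2
  have hjj : j ^ 2 = j * j := sq j
  obtain ⟨v, hv1, hvj, hvw⟩ : ∃ v, 1 ≤ v ∧ v ≤ j ∧ j ^ 2 + v ^ 2 = w * (v * d + 1) := by
    rcases le_total t u' with h | h
    · refine ⟨t, ht, ?_, h1⟩
      by_contra hc
      push Not at hc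
      have e1 : t * t ≤ t * u' := Nat.mul_le_mul_left _ h
      have e2 : j * j < t * t := Nat.mul_lt_mul'' hc hc
      omega
    · refine ⟨u', hu', ?_, h2⟩
      by_contra hc
      push Not at hc
      have e1 : u' * u' ≤ t * u' := Nat.mul_le_mul_right _ h
      have e2 : j * j < u' * u' := Nat.mul_lt_mul'' hc hc
      omega
  refine ⟨j, v, w, Finset.mem_Icc.mpr ⟨hj1, hjJ⟩, Finset.mem_Icc.mpr ⟨hv1, le_trans hvj hjJ⟩, ?_, ?_⟩
  · rw [Nat.mem_divisors]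
    refine ⟨⟨v * d + 1, hvw⟩, ?_⟩
    have : 0 < j ^ 2 := by positivity
    omega
  · rw [hvw, Nat.mul_div_cancel_left _ (by omega), Nat.add_sub_cancel,
      Nat.mul_div_cancel_left _ (by omega), hkj]

theorem bad4_card (X D : ℕ) (hD : 1 ≤ D) (T : ℝ)
    (hT : ∀ n : ℕ, 1 ≤ n → n ≤ 8 * X ^ 2 → (n.divisors.card : ℝ) ≤ T) :
    ((Bad4 X D).card : ℝ) ≤ ((2 * X / D : ℕ) : ℝ) ^ 2 * T := by
  classical
  set J := 2 * X / D with hJ
  have hJX : J ≤ 2 * X := Nat.div_le_self _ _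
  let P : Finset (Σ _ : ℕ × ℕ, ℕ) :=
    (Finset.Icc 1 J ×ˢ Finset.Icc 1 J).sigma fun p => (p.1 ^ 2 + p.2 ^ 2).divisors
  let f : (Σ _ : ℕ × ℕ, ℕ) → ℕ := fun q =>
    (((q.1.1 ^ 2 + q.1.2 ^ 2) / q.2 - 1) / q.1.2) * q.1.1
  have hsub : Bad4 X D ⊆ P.image f := by
    intro k hk
    obtain ⟨j, v, w, hj, hv, hw, he⟩ := bad4_mem hD hk
    rw [Finset.mem_image]
    exact ⟨⟨(j, v), w⟩, Finset.mem_sigma.mpr ⟨Finset.mem_product.mpr ⟨hj, hv⟩, hw⟩, he⟩
  have hcard : (Bad4 X D).card ≤ P.card :=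
    le_trans (Finset.card_le_card hsub) Finset.card_image_le
  have hP : (P.card : ℝ) ≤ (J : ℝ) ^ 2 * T := by
    have h1 : P.card = ∑ p ∈ Finset.Icc 1 J ×ˢ Finset.Icc 1 J, (p.1 ^ 2 + p.2 ^ 2).divisors.card :=
      Finset.card_sigma _ _
    rw [h1]
    push_cast
    have h2 : ∀ p ∈ Finset.Icc 1 J ×ˢ Finset.Icc 1 J,
        ((p.1 ^ 2 + p.2 ^ 2).divisors.card : ℝ) ≤ T := by
      intro p hp
      rw [Finset.mem_product, Finset.mem_Icc, Finset.mem_Icc] at hp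
      apply hT
      · have : 0 < p.1 ^ 2 := Nat.pow_pos (by omega)
        omega
      · have e1 : p.1 ^ 2 ≤ (2 * X) ^ 2 := Nat.pow_le_pow_left (le_trans hp.1.2 hJX) 2
        have e2 : p.2 ^ 2 ≤ (2 * X) ^ 2 := Nat.pow_le_pow_left (le_trans hp.2.2 hJX) 2
        have e3 : (2 * X) ^ 2 = 4 * X ^ 2 := by ring
        omega
    refine le_trans (Finset.sum_le_sum h2) ?_
    rw [Finset.sum_const, Finset.card_product, Nat.card_Icc, Nat.add_sub_cancel, nsmul_eq_mul]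
    push_cast
    rw [sq]
  exact le_trans (by exact_mod_cast hcard) hP

end Pool.Agent.Lib.XE
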