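import Pool.Agent.Lib.XE.Defs

/-!
B5 (row 12, 130 lines). Words: for `k` in `Bad5` put `K' = kap s y a c g`, an integer with `K' <> 0`, `|K'| <= K`. The tuple
`(s, y, c, g, K', a)` determines `x` (from `x K' = g y - a (c-1)`, `K' <> 0`) and `k = s x y`. There are at most `S Y C (G+1) (2K+1)`
tuples `(s, y, c, g, K')`, and for each of them at most two `a`: the `a` are roots of the polynomial
`c a^2 - g y a + (s^2 y^2 - K')` of degree 2, `c >= 1` (for three different roots `a1, a2, a3` subtract: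
`c (a1+a2) = g y = c (a1+a3)`, so `a2 = a3`).
-/

namespace Pool.Agent.Lib.XE

private theorem b5_root {s y c g a b : ℕ} (h : kap s y a c g = kap s y b c g) (hab : a ≠ b) :
    (c : ℤ) * (a + b) = g * y := by
  unfold kap at h
  have h1 : ((a : ℤ) - b) * ((c : ℤ) * (a + b) - g * y) = 0 := by linear_combination h
  rcases mul_eq_zero.1 h1 with h2 | h2
  · exact absurd (by exact_mod_cast sub_eq_zero.1 h2 : a = b) hab
  · exact sub_eq_zero.1 h2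

theorem bad5_card (X S Y C G K : ℕ) :
    (Bad5 X S Y C G K).card ≤ 2 * (S * Y * C * (G + 1) * (2 * K + 1)) := by
  classical
  have H : ∀ k, ∃ p : ℕ × ℕ × ℕ × ℕ × ℕ × ℕ, k ∈ Bad5 X S Y C G K →
      1 ≤ p.1 ∧ 1 ≤ p.2.2.1 ∧ 1 ≤ p.2.2.2.2.1 ∧ p.1 ≤ S ∧ p.2.2.1 ≤ Y ∧ p.2.2.2.2.1 ≤ C ∧ p.2.2.2.2.2 ≤ G ∧
      k = p.1 * p.2.1 * p.2.2.1 ∧ kap p.1 p.2.2.1 p.2.2.2.1 p.2.2.2.2.1 p.2.2.2.2.2 ≠ 0 ∧
      |kap p.1 p.2.2.1 p.2.2.2.1 p.2.2.2.2.1 p.2.2.2.2.2| ≤ K ∧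
      (p.2.1 : ℤ) * kap p.1 p.2.2.1 p.2.2.2.1 p.2.2.2.2.1 p.2.2.2.2.2 =
        p.2.2.2.2.2 * p.2.2.1 - p.2.2.2.1 * (p.2.2.2.2.1 - 1) := by
    intro k
    by_cases hk : k ∈ Bad5 X S Y C G K
    · obtain ⟨-, s, x, y, a, c, g, h⟩ := Finset.mem_filter.1 hk
      exact ⟨(s, x, y, a, c, g), fun _ => h⟩
    · exact ⟨(0, 0, 0, 0, 0, 0), fun h => absurd h hk⟩
  choose p hp using H
  let F : ℕ → ℕ × ℕ × ℕ × ℕ × ℤ := fun k =>
    ((p k).1, (p k).2.2.1, (p k).2.2.2.2.1, (p k).2.2.2.2.2,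
      kap (p k).1 (p k).2.2.1 (p k).2.2.2.1 (p k).2.2.2.2.1 (p k).2.2.2.2.2)
  let T : Finset (ℕ × ℕ × ℕ × ℕ × ℤ) :=
    Finset.Icc 1 S ×ˢ Finset.Icc 1 Y ×ˢ Finset.Icc 1 C ×ˢ Finset.range (G + 1) ×ˢ Finset.Icc (-(K : ℤ)) K
  have hT : T.card = S * Y * C * (G + 1) * (2 * K + 1) := by
    have h1 : (K + 1 - -(K : ℤ)).toNat = 2 * K + 1 := by omega
    simp only [T, Finset.card_product, Nat.card_Icc, Finset.card_range, Int.card_Icc, h1]
    simp only [Nat.add_sub_cancel]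
    ring
  rw [← hT]
  refine Finset.card_le_mul_card_image_of_maps_to (f := F) ?_ 2 ?_
  · intro k hk
    obtain ⟨h1, h2, h3, h4, h5, h6, h7, h8, h9, h10, h11⟩ := hp k hk
    have h12 := abs_le.1 h10
    simp only [T, F, Finset.mem_product, Finset.mem_Icc, Finset.mem_range]
    exact ⟨⟨h1, h4⟩, ⟨h2, h5⟩, ⟨h3, h6⟩, by omega, h12.1, h12.2⟩
  · intro b _
    by_contra hcard
    rw [not_le, Finset.two_lt_card] at hcard
    obtain ⟨k1, m1, k2, m2, k3, m3, h12, h13, h23⟩ := hcard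
    obtain ⟨m1, e1⟩ := Finset.mem_filter.1 m1
    obtain ⟨m2, e2⟩ := Finset.mem_filter.1 m2
    obtain ⟨m3, e3⟩ := Finset.mem_filter.1 m3
    -- two elements of the fiber with the same `a` are equal
    have key : ∀ k l, k ∈ Bad5 X S Y C G K → l ∈ Bad5 X S Y C G K → F k = F l → k ≠ l →
        (p k).2.2.2.1 ≠ (p l).2.2.2.1 := by
      intro k l hk hl e hkl ha
      obtain ⟨-, -, -, -, -, -, -, h8, h9, -, h11⟩ := hp k hk
      obtain ⟨-, -, -, -, -, -, -, g8, g9, -, g11⟩ := hp l hl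
      simp only [F, Prod.mk.injEq] at e
      obtain ⟨f1, f2, f3, f4, f5⟩ := e
      apply hkl
      have hx : (p k).2.1 = (p l).2.1 := by
        have h : ((p k).2.1 : ℤ) * kap (p k).1 (p k).2.2.1 (p k).2.2.2.1 (p k).2.2.2.2.1 (p k).2.2.2.2.2 =
            ((p l).2.1 : ℤ) * kap (p k).1 (p k).2.2.1 (p k).2.2.2.1 (p k).2.2.2.2.1 (p k).2.2.2.2.2 := by
          rw [h11, f5, g11, f2, f3, f4, ha]
        exact_mod_cast mul_right_cancel₀ h9 h
      rw [h8, g8, f1, f2, hx]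
    have e12 : F k1 = F k2 := e1.trans e2.symm
    have e13 : F k1 = F k3 := e1.trans e3.symm
    have e23 : F k2 = F k3 := e2.trans e3.symm
    have a12 := key k1 k2 m1 m2 e12 h12
    have a13 := key k1 k3 m1 m3 e13 h13
    have a23 := key k2 k3 m2 m3 e23 h23
    simp only [F, Prod.mk.injEq] at e12 e13
    obtain ⟨f1, f2, f3, f4, f5⟩ := e12
    obtain ⟨g1, g2, g3, g4, g5⟩ := e13
    rw [← f1, ← f2, ← f3, ← f4] at f5
    rw [← g1, ← g2, ← g3, ← g4] at g5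
    have r1 := b5_root f5 a12
    have r2 := b5_root g5 a13
    have hc : 1 ≤ (p k1).2.2.2.2.1 := (hp k1 m1).2.2.1
    have r3 : ((p k1).2.2.2.2.1 : ℤ) * ((p k1).2.2.2.1 + (p k2).2.2.2.1) =
        ((p k1).2.2.2.2.1 : ℤ) * ((p k1).2.2.2.1 + (p k3).2.2.2.1) := r1.trans r2.symm
    have hc' : ((p k1).2.2.2.2.1 : ℤ) ≠ 0 := by
      have : (p k1).2.2.2.2.1 ≠ 0 := by omega
      exact_mod_cast this
    have r4 := mul_left_cancel₀ hc' r3
    apply a23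
    have r5 : ((p k2).2.2.2.1 : ℤ) = (p k3).2.2.2.1 := by linarith
    exact_mod_cast r5

end Pool.Agent.Lib.XE
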