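import Pool.Agent.Lib.XE.Red

/-!
BIG (helper7). If `k` has a prime factor `r` with `r^3 > k^2`, then `r` divides `phi (k^2+1)` if and only if `k^2+1` is prime, and
`phi (k^2+1) = k * phi (k+1)` if and only if `k+1` and `k^2+1` are both prime.
-/

namespace Pool.Agent.Lib.XE

theorem cube_dvd {k r : ℕ} (hk : 1 ≤ k) (hr : r.Prime) (hrk : r ∣ k) (h : r ∣ Nat.totient (k ^ 2 + 1))
    (hnp : ¬ (k ^ 2 + 1).Prime) : r ^ 3 ≤ k ^ 2 := by
  obtain ⟨q, hq, hqm, t, ht⟩ := exists_q hk hr hrk h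
  obtain ⟨j, hj⟩ := hrk
  obtain ⟨n', hn'⟩ := hqm
  have hq2 := hq.two_le
  have hqe : q = 1 + r * t := by omega
  have ht1 : 1 ≤ t := by
    rcases Nat.eq_zero_or_pos t with h0 | h0
    · subst h0; rw [Nat.mul_zero] at ht; omega
    · exact h0
  have hn1 : 1 < n' := by
    rcases Nat.lt_trichotomy n' 1 with h0 | h0 | h0
    · have : n' = 0 := by omega
      subst this; rw [Nat.mul_zero] at hn'; omega
    · subst h0; rw [Nat.mul_one] at hn'; rw [hn'] at hnp; exact absurd hq hnp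
    · exact h0
  obtain ⟨u, w, _, _, _, _, _, _, _, hd⟩ := vieta hk hj ht1 hn1 (by rw [← hqe]; exact hn'.symm)
  calc r ^ 3 = r ^ 2 * r := by ring
    _ ≤ r ^ 2 * j ^ 2 := Nat.mul_le_mul_left _ hd
    _ = k ^ 2 := by rw [hj]; ring

theorem totient_of_prime {k : ℕ} (h : (k ^ 2 + 1).Prime) : Nat.totient (k ^ 2 + 1) = k ^ 2 := by
  rw [Nat.totient_prime h]
  simp

theorem equation_of_primes {k : ℕ} (h1 : (k + 1).Prime) (h2 : (k ^ 2 + 1).Prime) :
    Nat.totient (k ^ 2 + 1) = k * Nat.totient (k + 1) := by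
  rw [Nat.totient_prime h1, totient_of_prime h2]
  simp [sq]

theorem primes_of_equation {k : ℕ} (h : Nat.totient (k ^ 2 + 1) = k * Nat.totient (k + 1)) (h2 : (k ^ 2 + 1).Prime) :
    (k + 1).Prime := by
  by_contra hp
  exact (red h hp).2.2 h2

theorem big_prime {k r : ℕ} (hr : r.Prime) (hrk : r ∣ k) (hk : k ^ 2 < r ^ 3) :
    (r ∣ Nat.totient (k ^ 2 + 1) ↔ (k ^ 2 + 1).Prime) ∧
    (Nat.totient (k ^ 2 + 1) = k * Nat.totient (k + 1) ↔ (k + 1).Prime ∧ (k ^ 2 + 1).Prime) := by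
  rcases Nat.eq_zero_or_pos k with h0 | h0
  · subst h0
    have e1 : ¬ r ∣ 1 := fun h => hr.one_lt.ne' (Nat.dvd_one.mp h)
    refine ⟨?_, ?_⟩
    · simp only [ne_eq, OfNat.ofNat_ne_zero, not_false_eq_true, zero_pow, zero_add, Nat.totient_one]
      exact ⟨fun h => absurd h e1, fun h => absurd h Nat.not_prime_one⟩
    · simp [Nat.not_prime_one]
  · have key : r ∣ Nat.totient (k ^ 2 + 1) → (k ^ 2 + 1).Prime := by
      intro h
      by_contra hnp
      exact absurd (cube_dvd h0 hr hrk h hnp) (not_le.mpr hk)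
    refine ⟨⟨key, fun h => ?_⟩, ⟨fun h => ?_, fun h => equation_of_primes h.1 h.2⟩⟩
    · rw [totient_of_prime h]
      exact dvd_pow hrk two_ne_zero
    · have h2 : (k ^ 2 + 1).Prime := key (hrk.trans ⟨_, h⟩)
      exact ⟨primes_of_equation h h2, h2⟩

end Pool.Agent.Lib.XE
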