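import Mathlib

/-!
# Definitions for the bound of the exceptions to Q1 of MP_9310ca_nt

`Exc X`: the `k` in `(X, 2X]` such that `k` divides `phi (k^2+1)` and `k^2+1` is not a prime.
`Bad1` to `Bad5`: the five sets which cover `Exc X`.
-/

namespace Pool.Agent.Lib.XE

/-- the `k` in `(X, 2X]` such that `k` divides `phi (k^2+1)` and `k^2+1` is not a prime -/
def Exc (X : ℕ) : Finset ℕ :=
  (Finset.Ioc X (2 * X)).filter fun k => k ∣ Nat.totient (k ^ 2 + 1) ∧ ¬ (k ^ 2 + 1).Prime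

open Classical in
/-- the `k` in `(X, 2X]` with a divisor `e >= z` all of whose prime factors are `<= y` -/
noncomputable def Bad1 (X y z : ℕ) : Finset ℕ :=
  (Finset.Ioc X (2 * X)).filter fun k => ∃ e : ℕ, e ∣ k ∧ z ≤ e ∧ ∀ p : ℕ, p.Prime → p ∣ e → p ≤ y

open Classical in
/-- the `k` in `(X, 2X]` for which there are primes `q` (in `Q`) and divisors `h q > y` of `q - 1`, with product
of the `h q` a divisor `>= z` of `k`, product of the `q` a divisor of `k^2+1`, and product of both at most `X` -/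
noncomputable def Bad2 (X y z : ℕ) : Finset ℕ :=
  (Finset.Ioc X (2 * X)).filter fun k => ∃ (Q : Finset ℕ) (h : ℕ → ℕ),
    (∀ q ∈ Q, q.Prime ∧ y < h q ∧ h q ∣ q - 1) ∧ (∏ q ∈ Q, h q) ∣ k ∧ (∏ q ∈ Q, q) ∣ k ^ 2 + 1 ∧
    (∏ q ∈ Q, h q) * (∏ q ∈ Q, q) ≤ X ∧ z ≤ ∏ q ∈ Q, h q

open Classical in
/-- the `k` in `(X, 2X]` with a divisor `d >= L` such that `k^2+1` has a divisor `1 < n <= N`, `n = 1` modulo `d` -/
noncomputable def Bad3 (X L N : ℕ) : Finset ℕ :=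
  (Finset.Ioc X (2 * X)).filter fun k => ∃ d t : ℕ, L ≤ d ∧ d ∣ k ∧ 1 ≤ t ∧ 1 + d * t ≤ N ∧ (1 + d * t) ∣ k ^ 2 + 1

open Classical in
/-- the `k = d * j` in `(X, 2X]` with `d >= D` and `k^2+1 = (1+d*t) * (1+d*u)`, `t, u >= 1` -/
noncomputable def Bad4 (X D : ℕ) : Finset ℕ :=
  (Finset.Ioc X (2 * X)).filter fun k => ∃ d j t u : ℕ, k = d * j ∧ D ≤ d ∧ 1 ≤ t ∧ 1 ≤ u ∧
    (1 + d * t) * (1 + d * u) = k ^ 2 + 1

/-- the value of the quadratic form of the main case -/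
def kap (s y a c g : ℕ) : ℤ := (c : ℤ) * a ^ 2 - g * a * y + s ^ 2 * y ^ 2

open Classical in
/-- the `k = s*x*y` in `(X, 2X]` of the main case, with bounds for the parameters -/
noncomputable def Bad5 (X S Y C G K : ℕ) : Finset ℕ :=
  (Finset.Ioc X (2 * X)).filter fun k => ∃ s x y a c g : ℕ, 1 ≤ s ∧ 1 ≤ y ∧ 1 ≤ c ∧
    s ≤ S ∧ y ≤ Y ∧ c ≤ C ∧ g ≤ G ∧ k = s * x * y ∧ kap s y a c g ≠ 0 ∧ |kap s y a c g| ≤ K ∧
    (x : ℤ) * kap s y a c g = g * y - a * (c - 1)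

end Pool.Agent.Lib.XE
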