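import Pool.Agent.Lib.XE.Defs

/-!
DIV (row 19, 60 lines + copy). Copy the proof of `card_divisors_le_rpow` from `Pool/Agent/Lib/MP_cb2e5b_nt/DivB.lean` (private lemmas here),
or import that file. With exponent `1/8000` and `n <= 8 X^2`: `n^(1/8000) <= 8^(1/8000) X^(1/4000) <= 2 X^(1/2000)` for `X >= 1`. And
`2^omega(n)` is at most the number of divisors of `n` (the divisors which are products of different primes; or
`Nat.card_divisors` with `2 <= factorization + 1`).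
-/

open Finset

namespace Pool.Agent.Lib.XE

/-- local factor bound -/
private theorem local_factor {η : ℝ} (hη : 0 < η) (a : ℕ) :
    ((a : ℝ) + 1) ≤ max 1 (1 / (η * Real.log 2)) * ((2 : ℝ) ^ η) ^ a := by
  have hlog : 0 < Real.log 2 := Real.log_pos (by norm_num)
  have h1 : 1 + (a : ℝ) * (η * Real.log 2) ≤ ((2 : ℝ) ^ η) ^ a := by
    have h2 : ((2 : ℝ) ^ η) ^ a = Real.exp ((a : ℝ) * (η * Real.log 2)) := by
      rw [Real.rpow_def_of_pos (by norm_num), ← Real.exp_nat_mul]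
      congr 1; ring
    rw [h2]
    have := Real.add_one_le_exp ((a : ℝ) * (η * Real.log 2))
    linarith
  have hM1 : (1 : ℝ) ≤ max 1 (1 / (η * Real.log 2)) := le_max_left _ _
  have hM2 : 1 / (η * Real.log 2) ≤ max 1 (1 / (η * Real.log 2)) := le_max_right _ _
  set M := max 1 (1 / (η * Real.log 2))
  have h3 : 1 ≤ M * (η * Real.log 2) := by
    rw [div_le_iff₀ (by positivity)] at hM2; exact hM2
  have ha : (0 : ℝ) ≤ a := Nat.cast_nonneg a
  calc (a : ℝ) + 1 ≤ M * (1 + (a : ℝ) * (η * Real.log 2)) := by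
        nlinarith
    _ ≤ _ := by gcongr

private theorem card_divisors_le_rpow {η : ℝ} (hη : 0 < η) :
    ∃ C : ℝ, 1 ≤ C ∧ ∀ n : ℕ, n ≠ 0 → (n.divisors.card : ℝ) ≤ C * (n : ℝ) ^ η := by
  set M := max 1 (1 / (η * Real.log 2)) with hM
  have hM1 : (1 : ℝ) ≤ M := le_max_left _ _
  set P0 : ℕ := ⌈(2 : ℝ) ^ (1 / η)⌉₊ with hP0
  refine ⟨M ^ (P0 + 1), one_le_pow₀ hM1, fun n hn => ?_⟩
  have e1 : (n : ℝ) ^ η = ∏ p ∈ n.primeFactors, ((p : ℝ) ^ η) ^ (n.factorization p) := by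
    have h1 : (n : ℝ) = ∏ p ∈ n.primeFactors, (p : ℝ) ^ (n.factorization p) := by
      have := Nat.prod_factorization_pow_eq_self hn
      conv_lhs => rw [← this]
      rw [Finsupp.prod, Nat.support_factorization]
      push_cast; rfl
    conv_lhs => rw [h1]
    rw [← Real.finsetProd_rpow _ _ (fun p _ => by positivity)]
    refine Finset.prod_congr rfl fun p _ => ?_
    rw [← Real.rpow_natCast, ← Real.rpow_natCast, ← Real.rpow_mul (by positivity),
      ← Real.rpow_mul (by positivity), mul_comm]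
  have e2 : (n.divisors.card : ℝ) = ∏ p ∈ n.primeFactors, ((n.factorization p : ℝ) + 1) := by
    rw [Nat.card_divisors hn]; push_cast; rfl
  have hle : ∀ p ∈ n.primeFactors, ((n.factorization p : ℝ) + 1) ≤
      (if p ∈ Finset.range (P0 + 1) then M else 1) * ((p : ℝ) ^ η) ^ (n.factorization p) := by
    intro p hp
    have hpp := Nat.prime_of_mem_primeFactors hp
    have hp2 : (2 : ℝ) ≤ p := by exact_mod_cast hpp.two_le
    by_cases hpr : p ∈ Finset.range (P0 + 1)
    · rw [if_pos hpr]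
      refine (local_factor hη _).trans ?_
      gcongr
    · rw [if_neg hpr, one_mul]
      have hpP : (2 : ℝ) ^ (1 / η) ≤ p := by
        have h1 : P0 + 1 ≤ p := by
          by_contra h; exact hpr (Finset.mem_range.2 (by omega))
        calc (2 : ℝ) ^ (1 / η) ≤ P0 := Nat.le_ceil _
          _ ≤ p := by exact_mod_cast (by omega : P0 ≤ p)
      have h2 : (2 : ℝ) ≤ (p : ℝ) ^ η := by
        calc (2 : ℝ) = ((2 : ℝ) ^ (1 / η)) ^ η := by
              rw [← Real.rpow_mul (by norm_num), one_div_mul_cancel hη.ne', Real.rpow_one]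
          _ ≤ _ := by gcongr
      calc ((n.factorization p : ℝ) + 1) ≤ (2 : ℝ) ^ (n.factorization p) := by
            have : n.factorization p + 1 ≤ 2 ^ (n.factorization p) := Nat.lt_two_pow_self
            exact_mod_cast this
        _ ≤ _ := by gcongr
  rw [e1, e2]
  refine (Finset.prod_le_prod (fun p _ => by positivity) hle).trans ?_
  rw [Finset.prod_mul_distrib]
  refine mul_le_mul_of_nonneg_right ?_ (Finset.prod_nonneg fun p _ => by positivity)
  rw [Finset.prod_ite, Finset.prod_const, Finset.prod_const_one, mul_one]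
  refine pow_le_pow_right₀ hM1 ?_
  calc #{x ∈ n.primeFactors | x ∈ Finset.range (P0 + 1)} ≤ #(Finset.range (P0 + 1)) :=
        Finset.card_le_card fun x hx => (Finset.mem_filter.1 hx).2
    _ = P0 + 1 := Finset.card_range _

theorem two_pow_omega_le {n : ℕ} (hn : 1 ≤ n) : 2 ^ n.primeFactors.card ≤ n.divisors.card := by
  have hn0 : n ≠ 0 := by omega
  rw [Nat.card_divisors hn0, ← Finset.prod_const]
  refine Finset.prod_le_prod' fun p hp => ?_
  have h1 := Nat.prime_of_mem_primeFactors hp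
  have h2 := Nat.dvd_of_mem_primeFactors hp
  have h3 := h1.factorization_pos_of_dvd hn0 h2
  omega

theorem div_bound : ∃ A : ℝ, 1 ≤ A ∧ ∀ X : ℕ, 1 ≤ X → ∀ n : ℕ, 1 ≤ n → n ≤ 8 * X ^ 2 →
    (n.divisors.card : ℝ) ≤ A * (X : ℝ) ^ (1 / 2000 : ℝ) := by
  obtain ⟨C, hC1, hC⟩ := card_divisors_le_rpow (η := 1 / 8000) (by norm_num)
  refine ⟨8 * C, by linarith, fun X hX n hn hnX => ?_⟩
  have hX1 : (1 : ℝ) ≤ X := by exact_mod_cast hX
  have hX0 : (0 : ℝ) ≤ X := by linarith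
  have h1 := hC n (by omega)
  have h2 : (n : ℝ) ≤ 8 * (X : ℝ) ^ 2 := by exact_mod_cast hnX
  have h3 : (n : ℝ) ^ (1 / 8000 : ℝ) ≤ 8 * (X : ℝ) ^ (1 / 2000 : ℝ) := by
    calc (n : ℝ) ^ (1 / 8000 : ℝ) ≤ (8 * (X : ℝ) ^ 2) ^ (1 / 8000 : ℝ) :=
          Real.rpow_le_rpow (Nat.cast_nonneg n) h2 (by norm_num)
      _ = (8 : ℝ) ^ (1 / 8000 : ℝ) * ((X : ℝ) ^ 2) ^ (1 / 8000 : ℝ) :=
          Real.mul_rpow (by norm_num) (by positivity)
      _ ≤ 8 * (X : ℝ) ^ (1 / 2000 : ℝ) := by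
          have e1 : (8 : ℝ) ^ (1 / 8000 : ℝ) ≤ 8 := by
            have := Real.rpow_le_rpow_of_exponent_le (by norm_num : (1 : ℝ) ≤ 8) (by norm_num : (1 / 8000 : ℝ) ≤ 1)
            rwa [Real.rpow_one] at this
          have e2 : ((X : ℝ) ^ 2) ^ (1 / 8000 : ℝ) ≤ (X : ℝ) ^ (1 / 2000 : ℝ) := by
            rw [← Real.rpow_natCast, ← Real.rpow_mul hX0]
            exact Real.rpow_le_rpow_of_exponent_le hX1 (by norm_num)
          exact mul_le_mul e1 e2 (by positivity) (by norm_num)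
  calc (n.divisors.card : ℝ) ≤ C * (n : ℝ) ^ (1 / 8000 : ℝ) := h1
    _ ≤ C * (8 * (X : ℝ) ^ (1 / 2000 : ℝ)) := mul_le_mul_of_nonneg_left h3 (by linarith)
    _ = 8 * C * (X : ℝ) ^ (1 / 2000 : ℝ) := by ring

end Pool.Agent.Lib.XE
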