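import Pool.Agent.Lib.XE.Fin

/-!
DYA (row 21, 90 lines; uses `exc_card`). `F x` = number of the `k` in `[1, x]` with the property. Words: with `h = x/2` (natural division)
`[1, x]` is contained in `[1, h]`, `(h, 2h]` and `{x}`, so `F x <= F h + (Exc h).card + 1`. Strong induction gives
`F x <= A x^b`, `b = 249/250`, for `A = max (100, X0 + 2...)`: for `x < 2 X0 + 2` trivially `F x <= x <= A`; for larger `x`:
`F x <= A (x/2)^b + (x/2)^b + 1 <= A x^b` since `2^(-b) <= 3/5`.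
-/

namespace Pool.Agent.Lib.XE

private lemma two_rpow_ge : (5 / 3 : ℝ) ≤ (2 : ℝ) ^ (249 / 250 : ℝ) := by
  have h1 : (5 / 3 : ℝ) ≤ (2 : ℝ) ^ (3 / 4 : ℝ) := by
    have h2 : (5 / 3 : ℝ) = ((5 / 3 : ℝ) ^ (4 : ℕ)) ^ (1 / 4 : ℝ) := by
      rw [← Real.rpow_natCast, ← Real.rpow_mul (by norm_num)]
      norm_num
    have h3 : (2 : ℝ) ^ (3 / 4 : ℝ) = ((2 : ℝ) ^ (3 : ℕ)) ^ (1 / 4 : ℝ) := by
      rw [← Real.rpow_natCast, ← Real.rpow_mul (by norm_num)]
      norm_num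
    rw [h2, h3]
    exact Real.rpow_le_rpow (by norm_num) (by norm_num) (by norm_num)
  exact h1.trans (Real.rpow_le_rpow_of_exponent_le (by norm_num) (by norm_num))

private lemma card_step (x : ℕ) :
    ((Finset.Icc 1 x).filter fun k => k ∣ Nat.totient (k ^ 2 + 1) ∧ ¬ (k ^ 2 + 1).Prime).card ≤
      ((Finset.Icc 1 (x / 2)).filter fun k => k ∣ Nat.totient (k ^ 2 + 1) ∧ ¬ (k ^ 2 + 1).Prime).card +
        (Exc (x / 2)).card + 1 := by
  have hsub : ((Finset.Icc 1 x).filter fun k => k ∣ Nat.totient (k ^ 2 + 1) ∧ ¬ (k ^ 2 + 1).Prime) ⊆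
      (((Finset.Icc 1 (x / 2)).filter fun k => k ∣ Nat.totient (k ^ 2 + 1) ∧ ¬ (k ^ 2 + 1).Prime) ∪
        Exc (x / 2)) ∪ {x} := by
    intro k hk
    rw [Finset.mem_filter, Finset.mem_Icc] at hk
    rw [Finset.mem_union, Finset.mem_union, Finset.mem_singleton]
    by_cases h1 : k ≤ x / 2
    · exact Or.inl (Or.inl (Finset.mem_filter.mpr ⟨Finset.mem_Icc.mpr ⟨hk.1.1, h1⟩, hk.2⟩))
    · by_cases h2 : k ≤ 2 * (x / 2)
      · refine Or.inl (Or.inr ?_)
        unfold Exc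
        exact Finset.mem_filter.mpr ⟨Finset.mem_Ioc.mpr ⟨by omega, h2⟩, hk.2⟩
      · exact Or.inr (by omega)
  calc _ ≤ _ := Finset.card_le_card hsub
    _ ≤ _ := Finset.card_union_le _ _
    _ ≤ _ := by
      have h := Finset.card_union_le
        ((Finset.Icc 1 (x / 2)).filter fun k => k ∣ Nat.totient (k ^ 2 + 1) ∧ ¬ (k ^ 2 + 1).Prime)
        (Exc (x / 2))
      rw [Finset.card_singleton]
      omega

theorem all_card : ∃ A : ℝ, ∀ x : ℕ, 1 ≤ x →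
    ((((Finset.Icc 1 x).filter fun k => k ∣ Nat.totient (k ^ 2 + 1) ∧ ¬ (k ^ 2 + 1).Prime).card : ℕ) : ℝ) ≤
      A * (x : ℝ) ^ (249 / 250 : ℝ) := by
  obtain ⟨X0, hX0⟩ := exc_card
  refine ⟨max 100 (2 * (X0 : ℝ) + 2), ?_⟩
  have hA1 : (100 : ℝ) ≤ max 100 (2 * (X0 : ℝ) + 2) := le_max_left _ _
  have hA2 : 2 * (X0 : ℝ) + 2 ≤ max 100 (2 * (X0 : ℝ) + 2) := le_max_right _ _
  generalize max 100 (2 * (X0 : ℝ) + 2) = A at hA1 hA2 ⊢
  intro x
  induction x using Nat.strong_induction_on with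
  | _ x ih =>
    intro hx
    have hxb : (1 : ℝ) ≤ (x : ℝ) ^ (249 / 250 : ℝ) :=
      Real.one_le_rpow (by exact_mod_cast hx) (by norm_num)
    rcases lt_or_ge x (2 * X0 + 2) with hlt | hge
    · have h1 : ((Finset.Icc 1 x).filter fun k =>
          k ∣ Nat.totient (k ^ 2 + 1) ∧ ¬ (k ^ 2 + 1).Prime).card ≤ x := by
        refine (Finset.card_filter_le _ _).trans ?_
        rw [Nat.card_Icc]
        omega
      have h2 : ((((Finset.Icc 1 x).filter fun k =>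
          k ∣ Nat.totient (k ^ 2 + 1) ∧ ¬ (k ^ 2 + 1).Prime).card : ℕ) : ℝ) ≤ (x : ℝ) := by
        exact_mod_cast h1
      have h3 : (x : ℝ) ≤ 2 * (X0 : ℝ) + 2 := by
        have : ((x : ℕ) : ℝ) ≤ ((2 * X0 + 2 : ℕ) : ℝ) := by exact_mod_cast hlt.le
        push_cast at this
        linarith
      nlinarith
    · have hh1 : 1 ≤ x / 2 := by omega
      have hh2 : x / 2 < x := by omega
      have hh3 : X0 ≤ x / 2 := by omega
      have i1 := ih (x / 2) hh2 hh1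
      have i2 := hX0 (x / 2) hh3
      have i3 : ((((Finset.Icc 1 x).filter fun k =>
          k ∣ Nat.totient (k ^ 2 + 1) ∧ ¬ (k ^ 2 + 1).Prime).card : ℕ) : ℝ) ≤
          ((((Finset.Icc 1 (x / 2)).filter fun k =>
          k ∣ Nat.totient (k ^ 2 + 1) ∧ ¬ (k ^ 2 + 1).Prime).card : ℕ) : ℝ) +
          (((Exc (x / 2)).card : ℕ) : ℝ) + 1 := by
        exact_mod_cast card_step x
      have i4 : (((x / 2 : ℕ) : ℝ)) ^ (249 / 250 : ℝ) ≤ 3 / 5 * (x : ℝ) ^ (249 / 250 : ℝ) := by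
        have j1 : (((x / 2 : ℕ) : ℝ)) ≤ (x : ℝ) / 2 := by
          have := Nat.cast_div_le (α := ℝ) (m := x) (n := 2)
          simpa using this
        have j2 : (((x / 2 : ℕ) : ℝ)) ^ (249 / 250 : ℝ) ≤ ((x : ℝ) / 2) ^ (249 / 250 : ℝ) :=
          Real.rpow_le_rpow (by positivity) j1 (by norm_num)
        rw [Real.div_rpow (by positivity) (by norm_num)] at j2
        have j3 := two_rpow_ge
        have j4 : (x : ℝ) ^ (249 / 250 : ℝ) / (2 : ℝ) ^ (249 / 250 : ℝ) ≤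
            (x : ℝ) ^ (249 / 250 : ℝ) / (5 / 3) :=
          div_le_div_of_nonneg_left (by positivity) (by norm_num) j3
        calc _ ≤ _ := j2
          _ ≤ _ := j4
          _ = _ := by ring
      have i5 : (0 : ℝ) ≤ (((x / 2 : ℕ) : ℝ)) ^ (249 / 250 : ℝ) := by positivity
      have i6 : A * (((x / 2 : ℕ) : ℝ)) ^ (249 / 250 : ℝ) ≤ A * (3 / 5 * (x : ℝ) ^ (249 / 250 : ℝ)) :=
        mul_le_mul_of_nonneg_left i4 (by linarith)
      nlinarith

end Pool.Agent.Lib.XE
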