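import Pool.Agent.Lib.XE.AsC
import Pool.Agent.Lib.XE.AsD

/-!
PAR (row 17, 110 lines; uses `structure_of_exc`, `mem_bad5`). Words: `L = B`, `z = B^2`, `N = B^199`, `D = B^102`, `A0 = 2 B^8`,
`S = A0 z^2 = 2 B^12`, `C = 20 B^2`, `G = 880 B^15`, `K = 2160 B^31`. Conditions: `(z L)^51 = B^153 <= B^200 <= X`;
`5 X^2 <= 20 B^400 <= B^597 = N^3`; `a >= 2 B^8 + 1` gives `a^50 > 2^50 B^400 >= 20 B^400 >= 5 X^2`; `A0 z^2 D = 2 B^114 <= X`;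
`5 X^2 <= 20 B^400 = C N^2`; `11 C S X = 440 B^14 X <= 880 B^214 = G N`;
`G S D^2 N = 1760 B^430 <= 1760 B^31 X N` and `5 C S^2 D^2 X = 400 B^230 X = 400 B^31 X N`.
-/

namespace Pool.Agent.Lib.XE

theorem exc_subset {B X : ℕ} (hB : 20 ≤ B) (h1 : B ^ 200 ≤ X) (h2 : X ≤ 2 * B ^ 200) (y : ℕ) :
    Exc X ⊆ Bad1 X y (B ^ 2) ∪ Bad2 X y (B ^ 2) ∪ Bad3 X B (B ^ 199) ∪ Bad4 X (B ^ 102) ∪
      Bad5 X (2 * B ^ 12) (B ^ 102) (20 * B ^ 2) (880 * B ^ 15) (2160 * B ^ 31) := by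
  have hB1 : 1 ≤ B := by omega
  have hpos : ∀ n : ℕ, 1 ≤ B ^ n := fun n => Nat.one_le_pow _ _ (by omega)
  have hX1 : 1 ≤ X := (hpos 200).trans h1
  have hXX : 5 * X ^ 2 ≤ 20 * B ^ 400 := by
    calc 5 * X ^ 2 ≤ 5 * (2 * B ^ 200) ^ 2 := Nat.mul_le_mul_left 5 (Nat.pow_le_pow_left h2 2)
      _ = 20 * B ^ 400 := by ring
  have c2 : (B ^ 2 * B) ^ 51 ≤ X := by
    calc (B ^ 2 * B) ^ 51 = B ^ 153 := by ring
      _ ≤ B ^ 200 := Nat.pow_le_pow_right hB1 (by norm_num)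
      _ ≤ X := h1
  have c3 : 5 * X ^ 2 ≤ (B ^ 199) ^ 3 := by
    calc 5 * X ^ 2 ≤ 20 * B ^ 400 := hXX
      _ ≤ B * B ^ 400 := Nat.mul_le_mul_right _ hB
      _ = B ^ 401 := (pow_succ' B 400).symm
      _ ≤ B ^ 597 := Nat.pow_le_pow_right hB1 (by norm_num)
      _ = (B ^ 199) ^ 3 := by ring
  have c4 : ∀ a : ℕ, a ^ 50 ≤ 5 * X ^ 2 → a ≤ 2 * B ^ 8 := by
    intro a ha
    by_contra hlt
    have h3 : 2 * B ^ 8 + 1 ≤ a := by omega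
    have h4 : (2 * B ^ 8) ^ 50 < a ^ 50 := Nat.pow_lt_pow_left (by omega) (by norm_num)
    have h5 : (2 * B ^ 8) ^ 50 = 2 ^ 50 * B ^ 400 := by ring
    have h6 : 20 * B ^ 400 ≤ 2 ^ 50 * B ^ 400 := Nat.mul_le_mul_right _ (by norm_num)
    rw [h5] at h4
    exact absurd (lt_of_le_of_lt (ha.trans (hXX.trans h6)) h4) (lt_irrefl _)
  have c5 : 2 * B ^ 8 * (B ^ 2) ^ 2 * B ^ 102 ≤ X := by
    calc 2 * B ^ 8 * (B ^ 2) ^ 2 * B ^ 102 = 2 * B ^ 114 := by ring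
      _ ≤ B * B ^ 114 := Nat.mul_le_mul_right _ (by omega)
      _ = B ^ 115 := by ring
      _ ≤ B ^ 200 := Nat.pow_le_pow_right hB1 (by norm_num)
      _ ≤ X := h1
  have c6 : 5 * X ^ 2 ≤ 20 * B ^ 2 * (B ^ 199) ^ 2 := by
    calc 5 * X ^ 2 ≤ 20 * B ^ 400 := hXX
      _ = 20 * B ^ 2 * (B ^ 199) ^ 2 := by ring
  have c7 : 11 * (20 * B ^ 2) * (2 * B ^ 12) * X ≤ 880 * B ^ 15 * B ^ 199 := by
    calc 11 * (20 * B ^ 2) * (2 * B ^ 12) * X = 440 * B ^ 14 * X := by ring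
      _ ≤ 440 * B ^ 14 * (2 * B ^ 200) := Nat.mul_le_mul_left _ h2
      _ = 880 * B ^ 15 * B ^ 199 := by ring
  have c8 : 880 * B ^ 15 * (2 * B ^ 12) * (B ^ 102) ^ 2 * B ^ 199 +
      5 * (20 * B ^ 2) * (2 * B ^ 12) ^ 2 * (B ^ 102) ^ 2 * X ≤ 2160 * B ^ 31 * X * B ^ 199 := by
    have h3 : 880 * B ^ 15 * (2 * B ^ 12) * (B ^ 102) ^ 2 * B ^ 199 ≤ 1760 * B ^ 31 * X * B ^ 199 := by
      calc 880 * B ^ 15 * (2 * B ^ 12) * (B ^ 102) ^ 2 * B ^ 199 = 1760 * B ^ 31 * B ^ 200 * B ^ 199 := by ring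
        _ ≤ 1760 * B ^ 31 * X * B ^ 199 := Nat.mul_le_mul_right _ (Nat.mul_le_mul_left _ h1)
    have h4 : 5 * (20 * B ^ 2) * (2 * B ^ 12) ^ 2 * (B ^ 102) ^ 2 * X = 400 * B ^ 31 * X * B ^ 199 := by ring
    have h5 : 1760 * B ^ 31 * X * B ^ 199 + 400 * B ^ 31 * X * B ^ 199 = 2160 * B ^ 31 * X * B ^ 199 := by ring
    rw [h4, ← h5]
    exact Nat.add_le_add_right h3 _
  intro k hk
  simp only [Finset.mem_union]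
  by_cases n1 : k ∈ Bad1 X y (B ^ 2)
  · exact Or.inl (Or.inl (Or.inl (Or.inl n1)))
  by_cases n2 : k ∈ Bad2 X y (B ^ 2)
  · exact Or.inl (Or.inl (Or.inl (Or.inr n2)))
  by_cases n3 : k ∈ Bad3 X B (B ^ 199)
  · exact Or.inl (Or.inl (Or.inr n3))
  by_cases n4 : k ∈ Bad4 X (B ^ 102)
  · exact Or.inl (Or.inr n4)
  right
  obtain ⟨s, x, v, a, b, c, e1, e2, e3, e4, e5, e6, e7, e8, e9, e10, e11, e12, e13, e14, e15⟩ :=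
    structure_of_exc hX1 hB1 (hpos 2) (hpos 102) c2 c3 c4 c5 hk n1 n2 n3 n4
  have hS : 2 * B ^ 8 * (B ^ 2) ^ 2 = 2 * B ^ 12 := by ring
  rw [hS] at e8
  have hk' : k ∈ Finset.Ioc X (2 * X) := (Finset.mem_filter.1 hk).1
  exact mem_bad5 hX1 (hpos 199) c6 c7 c8 hk' e1 e2 e3 e4 e5 e6 e7 e8 e9 e10 e11 e12 e13 e14 e15

end Pool.Agent.Lib.XE
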