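import Pool.Agent.Lib.XE.B1
import Pool.Agent.Lib.XE.B2b
import Pool.Agent.Lib.XE.B3
import Pool.Agent.Lib.XE.B4
import Pool.Agent.Lib.XE.B5
import Pool.Agent.Lib.XE.Par
import Pool.Agent.Lib.XE.Ana
import Pool.Agent.Lib.XE.Div

/-!
FIN (row 20; uses everything above). The bound for one dyadic interval.

Proof in words. Let `B` be the greatest natural number with `B^200 <= X`. For large `X` one has `B >= 400`, and
`X < (B+1)^200 <= 2 B^200`, since `(1 + 1/B)^200 <= exp (200/B) <= exp (1/2) <= 2`. Let `y = yy X`, `W = X/B`, and let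
`T = A X^(1/2000)` be the bound of `div_bound` for the numbers of divisors (and so, by `two_pow_omega_le`, for `2^omega(n)`, with
`n <= B^199 <= 8 X^2`). By `exc_subset` the set `Exc X` is covered by the five sets `Bad1` to `Bad5`, and their bounds give at most
`8 X 2^y / B + (2 X/B) E + T (1 + log (B^199)) (2X/B + B^199) + (2X/B^102)^2 T`
`+ 2 (2 B^12 B^102 20 B^2 (880 B^15 + 1)(4320 B^31 + 1))`, with `E = exp (4 (1 + log X)/sqrt y)`.
Here `B^199 <= W`, `log (B^199) <= log X`, `(2X/B^102)^2 = 4 X^2/B^204 <= 8 X/B^4 <= 8 W`, and the last term is at most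
`4 * 10^8 B^162 <= 4 * 10^8 W`. So the sum is at most `4 * 10^8 A W (2^y + E + X^(1/2000) (1 + log X) + 1)`. And
`W <= 2 X^(199/200)`, because `X <= 2 B^200 <= (2B)^200` gives `X^(1/200) <= 2B`. By `ana` with the constant `8 * 10^8 A` the sum is at
most `X^(199/200) X^(1/1000) = X^(249/250)`.
-/

namespace Pool.Agent.Lib.XE

private theorem pow_bound {b : ℝ} (hb : 400 ≤ b) : (b + 1) ^ 200 ≤ 2 * b ^ 200 := by
  have hb0 : 0 < b := by linarith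
  have h1 : b + 1 = b * (1 + 1 / b) := by field_simp
  have h2 : (1 + 1 / b) ^ 200 ≤ 2 := by
    have h3 : 1 + 1 / b ≤ Real.exp (1 / b) := by
      have := Real.add_one_le_exp (1 / b)
      linarith
    have h30 : (0 : ℝ) ≤ 1 + 1 / b := by positivity
    calc (1 + 1 / b) ^ 200 ≤ (Real.exp (1 / b)) ^ 200 := pow_le_pow_left₀ h30 h3 200
      _ = Real.exp (200 * (1 / b)) := by
        rw [← Real.exp_nat_mul]
        norm_num
      _ ≤ Real.exp (1 / 2) := by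
        apply Real.exp_le_exp.mpr
        rw [mul_one_div, div_le_div_iff₀ hb0 (by norm_num)]
        linarith
      _ ≤ 2 := by
        have h4 : Real.exp (1 / 2) ^ 2 = Real.exp 1 := by
          rw [← Real.exp_nat_mul]
          norm_num
        have h5 := Real.exp_one_lt_d9
        have h6 := Real.exp_pos (1 / 2)
        nlinarith
  rw [h1, mul_pow, mul_comm]
  exact mul_le_mul_of_nonneg_right h2 (by positivity)

private theorem exists_root (X : ℕ) (hX : 400 ^ 200 ≤ X) :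
    ∃ B : ℕ, 400 ≤ B ∧ B ^ 200 ≤ X ∧ X ≤ 2 * B ^ 200 := by
  have h400 : 400 ≤ X := le_trans (Nat.le_self_pow (by norm_num) _) hX
  obtain ⟨B, hBdef⟩ : ∃ B : ℕ, B = Nat.findGreatest (fun b => b ^ 200 ≤ X) X := ⟨_, rfl⟩
  have hB : 400 ≤ B := by
    rw [hBdef]
    exact Nat.le_findGreatest h400 hX
  have hB1 : B ^ 200 ≤ X := by
    rw [hBdef]
    exact Nat.findGreatest_spec (P := fun b => b ^ 200 ≤ X) h400 hX
  have hB2 : X < (B + 1) ^ 200 := by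
    by_contra hc
    push Not at hc
    have hle : B + 1 ≤ X := le_trans (Nat.le_self_pow (by norm_num) _) hc
    have h := Nat.le_findGreatest (P := fun b => b ^ 200 ≤ X) hle hc
    rw [← hBdef] at h
    omega
  refine ⟨B, hB, hB1, ?_⟩
  have hb : (400 : ℝ) ≤ (B : ℝ) := by exact_mod_cast hB
  have h := pow_bound hb
  have h' : (B + 1) ^ 200 ≤ 2 * B ^ 200 := by exact_mod_cast h
  omega

/-- the bounds in terms of `W = x / b` -/
private theorem w_bounds {b x : ℝ} (hb : 1 ≤ b) (h1 : b ^ 200 ≤ x) (h2 : x ≤ 2 * b ^ 200) :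
    b ^ 199 ≤ x / b ∧ (2 * x / b ^ 102) ^ 2 ≤ 8 * (x / b) ∧
    2 * (2 * b ^ 12 * b ^ 102 * (20 * b ^ 2) * (880 * b ^ 15 + 1) * (2 * (2160 * b ^ 31) + 1)) ≤
      400000000 * (x / b) ∧ x / b ≤ 2 * x ^ (199 / 200 : ℝ) := by
  have hb0 : 0 < b := by linarith
  have hx0 : 0 < x := lt_of_lt_of_le (by positivity) h1
  have e1 : b ^ 199 ≤ x / b := by
    rw [le_div_iff₀ hb0]
    calc b ^ 199 * b = b ^ 200 := by ring
      _ ≤ x := h1
  refine ⟨e1, ?_, ?_, ?_⟩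
  · have e2 : (2 * x / b ^ 102) ^ 2 = 4 * x ^ 2 / b ^ 204 := by
      rw [div_pow]
      ring_nf
    rw [e2, div_le_iff₀ (by positivity)]
    have e3 : 8 * (x / b) * b ^ 204 = 8 * x * b ^ 203 := by
      field_simp
    rw [e3]
    have e4 : b ^ 200 ≤ b ^ 203 := pow_le_pow_right₀ hb (by norm_num)
    nlinarith
  · have e5 : (1 : ℝ) ≤ b ^ 15 := one_le_pow₀ hb
    have e6 : (1 : ℝ) ≤ b ^ 31 := one_le_pow₀ hb
    have e7 : 880 * b ^ 15 + 1 ≤ 881 * b ^ 15 := by linarith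
    have e8 : 2 * (2160 * b ^ 31) + 1 ≤ 4321 * b ^ 31 := by linarith
    have e9 : b ^ 162 ≤ b ^ 199 := pow_le_pow_right₀ hb (by norm_num)
    calc 2 * (2 * b ^ 12 * b ^ 102 * (20 * b ^ 2) * (880 * b ^ 15 + 1) * (2 * (2160 * b ^ 31) + 1))
        ≤ 2 * (2 * b ^ 12 * b ^ 102 * (20 * b ^ 2) * (881 * b ^ 15) * (4321 * b ^ 31)) := by gcongr
      _ = 304544080 * b ^ 162 := by ring
      _ ≤ 400000000 * b ^ 199 := by
        have : (0 : ℝ) ≤ b ^ 199 := by positivity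
        linarith
      _ ≤ 400000000 * (x / b) := by linarith
  · have f1 : x ≤ (2 * b) ^ 200 := by
      rw [mul_pow]
      have : (2 : ℝ) ≤ 2 ^ 200 := by norm_num
      calc x ≤ 2 * b ^ 200 := h2
        _ ≤ 2 ^ 200 * b ^ 200 := mul_le_mul_of_nonneg_right this (by positivity)
    have f2 : x ^ (1 / 200 : ℝ) ≤ 2 * b := by
      have f3 := Real.rpow_le_rpow hx0.le f1 (by norm_num : (0 : ℝ) ≤ 1 / 200)
      have f4 : ((2 * b) ^ 200) ^ (1 / 200 : ℝ) = 2 * b := by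
        have f5 := Real.pow_rpow_inv_natCast (x := 2 * b) (n := 200) (by positivity) (by norm_num)
        have f6 : (1 / 200 : ℝ) = (((200 : ℕ) : ℝ))⁻¹ := by norm_num
        rw [f6]
        exact f5
      rw [f4] at f3
      exact f3
    have f7 : x = x ^ (1 / 200 : ℝ) * x ^ (199 / 200 : ℝ) := by
      rw [← Real.rpow_add hx0]
      norm_num
    rw [div_le_iff₀ hb0]
    have f8 : 0 < x ^ (199 / 200 : ℝ) := Real.rpow_pos_of_pos hx0 _
    calc x = x ^ (1 / 200 : ℝ) * x ^ (199 / 200 : ℝ) := f7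
      _ ≤ 2 * b * x ^ (199 / 200 : ℝ) := mul_le_mul_of_nonneg_right f2 f8.le
      _ = 2 * x ^ (199 / 200 : ℝ) * b := by ring

/-- the sum of the five bounds -/
private theorem sum_bound {A b x W T E P L : ℝ} (hA : 1 ≤ A) (hW : 0 < W) (hP : 0 < P) (hE : 0 < E) (hL : 0 ≤ L)
    (hT : 0 < T) (h199 : b ^ 199 ≤ W) (hsq : (2 * x / b ^ 102) ^ 2 ≤ 8 * W) {F : ℝ}
    (hF : F ≤ 400000000 * W) :
    8 * W * P + 2 * W * E + A * T * (1 + L) * (2 * W + b ^ 199) + (2 * x / b ^ 102) ^ 2 * (A * T) + F ≤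
      400000000 * A * W * (P + E + T * (1 + L) + 1) := by
  have hA0 : 0 < A := by linarith
  have g1 : A * T * (1 + L) * (2 * W + b ^ 199) ≤ A * T * (1 + L) * (3 * W) := by
    apply mul_le_mul_of_nonneg_left _ (by positivity)
    linarith
  have g2 : (2 * x / b ^ 102) ^ 2 * (A * T) ≤ 8 * W * (A * T) :=
    mul_le_mul_of_nonneg_right hsq (by positivity)
  have g3 : 8 * W * (A * T) ≤ 8 * W * (A * T) * (1 + L) := by
    have : 0 < 8 * W * (A * T) := by positivity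
    nlinarith
  have g4 : 0 < W * P := by positivity
  have g5 : 0 < W * E := by positivity
  have g6 : W * P ≤ A * (W * P) := by nlinarith
  have g7 : W * E ≤ A * (W * E) := by nlinarith
  have g8 : W ≤ A * W := by nlinarith
  have g9 : 0 ≤ A * W * (T * (1 + L)) := by positivity
  nlinarith

theorem exc_card : ∃ X0 : ℕ, ∀ X : ℕ, X0 ≤ X → ((Exc X).card : ℝ) ≤ (X : ℝ) ^ (249 / 250 : ℝ) := by
  obtain ⟨A, hA, hdiv⟩ := div_bound
  obtain ⟨X1, hana⟩ := ana (800000000 * A)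
  refine ⟨max X1 (400 ^ 200), fun X hX => ?_⟩
  obtain ⟨hy, han⟩ := hana X (le_trans (le_max_left _ _) hX)
  obtain ⟨B, hB, hB1, hB2⟩ := exists_root X (le_trans (le_max_right _ _) hX)
  have hBpos : 1 ≤ B := by omega
  have hX1 : 1 ≤ X := le_trans (Nat.one_le_pow _ _ hBpos) hB1
  have hb : (1 : ℝ) ≤ (B : ℝ) := by exact_mod_cast hBpos
  have hb0 : (0 : ℝ) < (B : ℝ) := by linarith
  have hx1 : (1 : ℝ) ≤ (X : ℝ) := by exact_mod_cast hX1
  have hx0 : (0 : ℝ) < (X : ℝ) := by linarith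
  have h1 : (B : ℝ) ^ 200 ≤ X := by exact_mod_cast hB1
  have h2 : (X : ℝ) ≤ 2 * (B : ℝ) ^ 200 := by exact_mod_cast hB2
  obtain ⟨w1, w2, w3, w4⟩ := w_bounds hb h1 h2
  have hA0 : 0 < A := by linarith
  have hTpos : (0 : ℝ) < (X : ℝ) ^ (1 / 2000 : ℝ) := Real.rpow_pos_of_pos hx0 _
  have hlog : 0 ≤ Real.log X := Real.log_nonneg hx1
  have hN1 : 1 ≤ B ^ 199 := Nat.one_le_pow _ _ hBpos
  have hNX : B ^ 199 ≤ X := le_trans (Nat.pow_le_pow_right hBpos (by norm_num)) hB1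
  have hXX : X ≤ 8 * X ^ 2 := by nlinarith
  -- the five cards
  have c1 := bad1_card X (yy X) (B ^ 2) (Nat.one_le_pow _ _ hBpos)
  have c2 := bad2_card X (yy X) (B ^ 2) hX1 hy (Nat.one_le_pow _ _ hBpos)
  have c3 := bad3_card X B (B ^ 199) hBpos hN1 (A * (X : ℝ) ^ (1 / 2000 : ℝ)) (fun n hn hnN => by
    have hd := hdiv X hX1 n hn (le_trans (le_trans hnN hNX) hXX)
    have ho : (2 : ℝ) ^ n.primeFactors.card ≤ (n.divisors.card : ℝ) := by
      exact_mod_cast two_pow_omega_le hn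
    exact le_trans ho hd)
  have c4 := bad4_card X (B ^ 102) (Nat.one_le_pow _ _ hBpos) (A * (X : ℝ) ^ (1 / 2000 : ℝ)) (hdiv X hX1)
  have c5 : ((Bad5 X (2 * B ^ 12) (B ^ 102) (20 * B ^ 2) (880 * B ^ 15) (2160 * B ^ 31)).card : ℝ) ≤
      2 * (2 * (B : ℝ) ^ 12 * (B : ℝ) ^ 102 * (20 * (B : ℝ) ^ 2) * (880 * (B : ℝ) ^ 15 + 1) *
        (2 * (2160 * (B : ℝ) ^ 31) + 1)) := by
    exact_mod_cast bad5_card X (2 * B ^ 12) (B ^ 102) (20 * B ^ 2) (880 * B ^ 15) (2160 * B ^ 31)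
  have hsub := exc_subset (by omega : 20 ≤ B) hB1 hB2 (yy X)
  have hcard : ((Exc X).card : ℝ) ≤ ((Bad1 X (yy X) (B ^ 2)).card : ℝ) + ((Bad2 X (yy X) (B ^ 2)).card : ℝ) +
      ((Bad3 X B (B ^ 199)).card : ℝ) + ((Bad4 X (B ^ 102)).card : ℝ) +
      ((Bad5 X (2 * B ^ 12) (B ^ 102) (20 * B ^ 2) (880 * B ^ 15) (2160 * B ^ 31)).card : ℝ) := by
    have u0 := Finset.card_le_card hsub
    have u1 := Finset.card_union_le (Bad1 X (yy X) (B ^ 2) ∪ Bad2 X (yy X) (B ^ 2) ∪ Bad3 X B (B ^ 199) ∪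
      Bad4 X (B ^ 102)) (Bad5 X (2 * B ^ 12) (B ^ 102) (20 * B ^ 2) (880 * B ^ 15) (2160 * B ^ 31))
    have u2 := Finset.card_union_le (Bad1 X (yy X) (B ^ 2) ∪ Bad2 X (yy X) (B ^ 2) ∪ Bad3 X B (B ^ 199))
      (Bad4 X (B ^ 102))
    have u3 := Finset.card_union_le (Bad1 X (yy X) (B ^ 2) ∪ Bad2 X (yy X) (B ^ 2)) (Bad3 X B (B ^ 199))
    have u4 := Finset.card_union_le (Bad1 X (yy X) (B ^ 2)) (Bad2 X (yy X) (B ^ 2))
    have u : (Exc X).card ≤ (Bad1 X (yy X) (B ^ 2)).card + (Bad2 X (yy X) (B ^ 2)).card +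
      (Bad3 X B (B ^ 199)).card + (Bad4 X (B ^ 102)).card +
      (Bad5 X (2 * B ^ 12) (B ^ 102) (20 * B ^ 2) (880 * B ^ 15) (2160 * B ^ 31)).card := by omega
    exact_mod_cast u
  -- rewrite the square roots
  have hsqrt : Real.sqrt ((B ^ 2 : ℕ) : ℝ) = (B : ℝ) := by
    rw [Nat.cast_pow]
    exact Real.sqrt_sq hb0.le
  have d1 : ((Bad1 X (yy X) (B ^ 2)).card : ℝ) ≤ 8 * ((X : ℝ) / B) * (2 : ℝ) ^ yy X := by
    rw [hsqrt] at c1
    calc ((Bad1 X (yy X) (B ^ 2)).card : ℝ) ≤ 8 * X * 2 ^ yy X / (B : ℝ) := c1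
      _ = 8 * ((X : ℝ) / B) * (2 : ℝ) ^ yy X := by ring
  have d2 : ((Bad2 X (yy X) (B ^ 2)).card : ℝ) ≤
      2 * ((X : ℝ) / B) * Real.exp (4 * (1 + Real.log X) / Real.sqrt (yy X)) := by
    rw [hsqrt] at c2
    calc ((Bad2 X (yy X) (B ^ 2)).card : ℝ) ≤
          2 * X / (B : ℝ) * Real.exp (4 * (1 + Real.log X) / Real.sqrt (yy X)) := c2
      _ = 2 * ((X : ℝ) / B) * Real.exp (4 * (1 + Real.log X) / Real.sqrt (yy X)) := by ring
  have d3 : ((Bad3 X B (B ^ 199)).card : ℝ) ≤ A * (X : ℝ) ^ (1 / 2000 : ℝ) * (1 + Real.log X) *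
      (2 * ((X : ℝ) / B) + (B : ℝ) ^ 199) := by
    have hl : Real.log ((B ^ 199 : ℕ) : ℝ) ≤ Real.log X :=
      Real.log_le_log (by exact_mod_cast hN1) (by exact_mod_cast hNX)
    have hl0 : 0 ≤ Real.log ((B ^ 199 : ℕ) : ℝ) := Real.log_nonneg (by exact_mod_cast hN1)
    calc ((Bad3 X B (B ^ 199)).card : ℝ) ≤ A * (X : ℝ) ^ (1 / 2000 : ℝ) * (1 + Real.log ((B ^ 199 : ℕ) : ℝ)) *
          (2 * (X : ℝ) / B + ((B ^ 199 : ℕ) : ℝ)) := c3
      _ = A * (X : ℝ) ^ (1 / 2000 : ℝ) * (1 + Real.log ((B ^ 199 : ℕ) : ℝ)) *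
          (2 * ((X : ℝ) / B) + (B : ℝ) ^ 199) := by
        rw [Nat.cast_pow, mul_div_assoc]
      _ ≤ A * (X : ℝ) ^ (1 / 2000 : ℝ) * (1 + Real.log X) * (2 * ((X : ℝ) / B) + (B : ℝ) ^ 199) := by
        gcongr
  have d4 : ((Bad4 X (B ^ 102)).card : ℝ) ≤ (2 * (X : ℝ) / (B : ℝ) ^ 102) ^ 2 *
      (A * (X : ℝ) ^ (1 / 2000 : ℝ)) := by
    have hdv : ((2 * X / B ^ 102 : ℕ) : ℝ) ≤ 2 * (X : ℝ) / (B : ℝ) ^ 102 := by
      have := Nat.cast_div_le (α := ℝ) (m := 2 * X) (n := B ^ 102)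
      calc ((2 * X / B ^ 102 : ℕ) : ℝ) ≤ ((2 * X : ℕ) : ℝ) / ((B ^ 102 : ℕ) : ℝ) := this
        _ = 2 * (X : ℝ) / (B : ℝ) ^ 102 := by push_cast; ring
    calc ((Bad4 X (B ^ 102)).card : ℝ) ≤ ((2 * X / B ^ 102 : ℕ) : ℝ) ^ 2 *
          (A * (X : ℝ) ^ (1 / 2000 : ℝ)) := c4
      _ ≤ _ := by gcongr
  have hWpos : (0 : ℝ) < (X : ℝ) / B := by positivity
  have hsum := sum_bound (A := A) (b := (B : ℝ)) (x := (X : ℝ)) (W := (X : ℝ) / B)
    (T := (X : ℝ) ^ (1 / 2000 : ℝ)) (E := Real.exp (4 * (1 + Real.log X) / Real.sqrt (yy X)))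
    (P := (2 : ℝ) ^ yy X) (L := Real.log X) hA hWpos (by positivity) (Real.exp_pos _) hlog hTpos w1 w2 w3
  have hS : ((Exc X).card : ℝ) ≤ 400000000 * A * ((X : ℝ) / B) * ((2 : ℝ) ^ yy X +
      Real.exp (4 * (1 + Real.log X) / Real.sqrt (yy X)) + (X : ℝ) ^ (1 / 2000 : ℝ) * (1 + Real.log X) + 1) := by
    refine le_trans hcard (le_trans ?_ hsum)
    linarith
  have hSpos : (0 : ℝ) < (2 : ℝ) ^ yy X +
      Real.exp (4 * (1 + Real.log X) / Real.sqrt (yy X)) + (X : ℝ) ^ (1 / 2000 : ℝ) * (1 + Real.log X) + 1 := by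
    have := Real.exp_pos (4 * (1 + Real.log X) / Real.sqrt (yy X))
    positivity
  have hxp : (0 : ℝ) < (X : ℝ) ^ (199 / 200 : ℝ) := Real.rpow_pos_of_pos hx0 _
  calc ((Exc X).card : ℝ) ≤ 400000000 * A * ((X : ℝ) / B) * ((2 : ℝ) ^ yy X +
      Real.exp (4 * (1 + Real.log X) / Real.sqrt (yy X)) + (X : ℝ) ^ (1 / 2000 : ℝ) * (1 + Real.log X) + 1) := hS
    _ ≤ 400000000 * A * (2 * (X : ℝ) ^ (199 / 200 : ℝ)) * ((2 : ℝ) ^ yy X +
      Real.exp (4 * (1 + Real.log X) / Real.sqrt (yy X)) + (X : ℝ) ^ (1 / 2000 : ℝ) * (1 + Real.log X) + 1) := by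
      apply mul_le_mul_of_nonneg_right _ hSpos.le
      exact mul_le_mul_of_nonneg_left w4 (by positivity)
    _ = (X : ℝ) ^ (199 / 200 : ℝ) * (800000000 * A * ((2 : ℝ) ^ yy X +
      Real.exp (4 * (1 + Real.log X) / Real.sqrt (yy X)) + (X : ℝ) ^ (1 / 2000 : ℝ) * (1 + Real.log X) + 1)) := by
      ring
    _ ≤ (X : ℝ) ^ (199 / 200 : ℝ) * (X : ℝ) ^ (1 / 1000 : ℝ) := mul_le_mul_of_nonneg_left han hxp.le
    _ = (X : ℝ) ^ (249 / 250 : ℝ) := by
      rw [← Real.rpow_add hx0]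
      norm_num

end Pool.Agent.Lib.XE
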