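import Pool.Agent.Lib.XE.Dya
import Pool.Agent.Lib.XE.Big

/-! MAIN (helper7): the final theorem. -/

namespace Pool.Agent.Lib.XE

theorem exception {k : ℕ} (h : ¬ ((k ∣ Nat.totient (k ^ 2 + 1) ↔ (k ^ 2 + 1).Prime) ∧
    (Nat.totient (k ^ 2 + 1) = k * Nat.totient (k + 1) ↔ (k + 1).Prime ∧ (k ^ 2 + 1).Prime))) :
    k ∣ Nat.totient (k ^ 2 + 1) ∧ ¬ (k ^ 2 + 1).Prime := by
  by_contra hc
  rw [not_and, not_not] at hc
  apply h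
  refine ⟨⟨hc, fun h1 => ?_⟩, ⟨fun h1 => ?_, fun h1 => equation_of_primes h1.1 h1.2⟩⟩
  · rw [totient_of_prime h1]
    exact dvd_pow_self k two_ne_zero
  · have h2 := hc ⟨_, h1⟩
    exact ⟨primes_of_equation h1 h2, h2⟩

theorem main_all :
    ∃ A : ℝ, ∀ x : ℕ, 1 ≤ x →
      ((((Finset.Icc 1 x).filter fun k => ¬ ((k ∣ Nat.totient (k ^ 2 + 1) ↔ (k ^ 2 + 1).Prime) ∧
        (Nat.totient (k ^ 2 + 1) = k * Nat.totient (k + 1) ↔ (k + 1).Prime ∧ (k ^ 2 + 1).Prime))).card : ℕ) : ℝ) ≤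
        A * (x : ℝ) ^ (249 / 250 : ℝ) := by
  obtain ⟨A, hA⟩ := all_card
  refine ⟨A, fun x hx => le_trans ?_ (hA x hx)⟩
  have hsub : ((Finset.Icc 1 x).filter fun k => ¬ ((k ∣ Nat.totient (k ^ 2 + 1) ↔ (k ^ 2 + 1).Prime) ∧
        (Nat.totient (k ^ 2 + 1) = k * Nat.totient (k + 1) ↔ (k + 1).Prime ∧ (k ^ 2 + 1).Prime))) ⊆
        ((Finset.Icc 1 x).filter fun k => k ∣ Nat.totient (k ^ 2 + 1) ∧ ¬ (k ^ 2 + 1).Prime) := by
    intro k hk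
    rw [Finset.mem_filter] at hk ⊢
    exact ⟨hk.1, exception hk.2⟩
  exact_mod_cast Finset.card_le_card hsub

end Pool.Agent.Lib.XE
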