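import Pool.Agent.Lib.XE.Viet

/-!
RED (row 2, 100 lines).
`red`: if `phi (k^2+1) = k * phi (k+1)` and `k+1` is not prime, then `k >= 1`, `k` divides `phi (k^2+1)` and `k^2+1` is not
prime. Words: `k = 0` is impossible since `phi 1 = 1`. If `k^2+1` were prime, `phi (k^2+1) = k^2`, so `phi (k+1) = k`, and a number
`n >= 2` with `phi n = n-1` is prime (`Nat.totient_eq_iff_prime` or similar).
`exists_q`: a prime `r` dividing `k` and `phi (k^2+1)` divides `q-1` for a prime `q` dividing `k^2+1`. Words: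
`phi m = prod p^(e-1) (p-1)` over the primes of `m` (`Nat.totient_eq_prod_factorization` or `Nat.totient_mul_prod_primeFactors`:
`phi m * prod p = m * prod (p-1)`); `r` does not divide `m = k^2+1` because it divides `k`.
`cube`: for `k` as in `red` and a prime `r` dividing `k`: `r^3 <= k^2`. Words: take `q` from `exists_q`, `q = 1 + r*t`, `t >= 1`,
`n' = (k^2+1)/q > 1` as `k^2+1` is not prime, `vieta` with `d = r`, `k = r*j`: `r <= j^2`, so `r^3 <= r^2 j^2 = k^2`.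
-/

namespace Pool.Agent.Lib.XE

theorem red {k : ℕ} (h : Nat.totient (k ^ 2 + 1) = k * Nat.totient (k + 1)) (hp : ¬ (k + 1).Prime) :
    1 ≤ k ∧ k ∣ Nat.totient (k ^ 2 + 1) ∧ ¬ (k ^ 2 + 1).Prime := by
  have hk : 1 ≤ k := by
    rcases Nat.eq_zero_or_pos k with h0 | h0
    · subst h0; simp at h
    · exact h0
  refine ⟨hk, ⟨_, h⟩, ?_⟩
  intro hq
  rw [Nat.totient_prime hq] at h
  have h1 : k * k = k * Nat.totient (k + 1) := by
    rw [← h]
    have : k ^ 2 + 1 - 1 = k ^ 2 := by omega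
    rw [this, sq]
  have h2 : k = Nat.totient (k + 1) := Nat.eq_of_mul_eq_mul_left (by omega) h1
  exact hp ((Nat.totient_eq_iff_prime (by omega : 0 < k + 1)).mp (by omega))

theorem exists_q {k r : ℕ} (hk : 1 ≤ k) (hr : r.Prime) (hrk : r ∣ k) (h : r ∣ Nat.totient (k ^ 2 + 1)) :
    ∃ q : ℕ, q.Prime ∧ q ∣ k ^ 2 + 1 ∧ r ∣ q - 1 := by
  have h1 := Nat.totient_mul_prod_primeFactors (k ^ 2 + 1)
  have h2 : r ∣ (k ^ 2 + 1) * ∏ p ∈ (k ^ 2 + 1).primeFactors, (p - 1) := by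
    rw [← h1]
    exact Dvd.dvd.mul_right h _
  rcases (Nat.Prime.dvd_mul hr).mp h2 with h3 | h3
  · exfalso
    have h4 : r ∣ k ^ 2 := Dvd.dvd.trans hrk (Dvd.intro_left k (by ring))
    have h5 : r ∣ 1 := (Nat.dvd_add_right h4).mp h3
    exact hr.one_lt.ne' (Nat.dvd_one.mp h5)
  · obtain ⟨q, hq, hrq⟩ := (Prime.dvd_finsetProd_iff hr.prime _).mp h3
    exact ⟨q, Nat.prime_of_mem_primeFactors hq, Nat.dvd_of_mem_primeFactors hq, hrq⟩

theorem cube {k r : ℕ} (h : Nat.totient (k ^ 2 + 1) = k * Nat.totient (k + 1)) (hp : ¬ (k + 1).Prime)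
    (hr : r.Prime) (hrk : r ∣ k) : r ^ 3 ≤ k ^ 2 := by
  obtain ⟨hk, hkd, hnp⟩ := red h hp
  obtain ⟨q, hq, hqm, t, ht⟩ := exists_q hk hr hrk (hrk.trans hkd)
  obtain ⟨j, hj⟩ := hrk
  obtain ⟨n', hn'⟩ := hqm
  have hq2 := hq.two_le
  have hqe : q = 1 + r * t := by omega
  have ht1 : 1 ≤ t := by
    rcases Nat.eq_zero_or_pos t with h0 | h0
    · subst h0; rw [Nat.mul_zero] at ht; omega
    · exact h0
  have hn1 : 1 < n' := by
    rcases Nat.lt_trichotomy n' 1 with h0 | h0 | h0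
    · have : n' = 0 := by omega
      subst this; rw [Nat.mul_zero] at hn'; omega
    · subst h0; rw [Nat.mul_one] at hn'; rw [hn'] at hnp; exact absurd hq hnp
    · exact h0
  obtain ⟨u, w, _, _, _, _, _, _, _, hd⟩ := vieta hk hj ht1 hn1 (by rw [← hqe]; exact hn'.symm)
  calc r ^ 3 = r ^ 2 * r := by ring
    _ ≤ r ^ 2 * j ^ 2 := Nat.mul_le_mul_left _ hd
    _ = k ^ 2 := by rw [hj]; ring

end Pool.Agent.Lib.XE
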