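import Pool.Agent.Lib.XE.Defs

/-!
RHOA (row 5, 120 lines). The number of solutions of `a^2 = -1` modulo `n` is at most `2^omega(n)`. Words: induction over the coprime
factorization (`Nat.recOnPosPrimePosCoprime` or `induction_on_primes`): for coprime `m`, `n` the map `a -> (a mod m, a mod n)` is
injective on `range (m n)` and maps solutions to pairs of solutions, so `rho (m n) <= rho m * rho n`. For a power `p^e`, `e >= 1`: if
`p` is odd and `a, b` are solutions, `p^e` divides `(a-b)(a+b)`, and `p` cannot divide both factors (it would divide `2a`, so `a`, so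
`1`), hence `b = a` or `b = -a` modulo `p^e`: at most 2 solutions. If `p = 2` and `e >= 2` there is no solution (`a^2+1` is never
divisible by 4), `e = 1`: one solution.
-/

namespace Pool.Agent.Lib.XE

/-- the residues `a` modulo `n` with `n` dividing `a^2+1` -/
def roots (n : ℕ) : Finset ℕ := (Finset.range n).filter fun a => n ∣ a ^ 2 + 1

private lemma mem_roots' {n a : ℕ} : a ∈ roots n ↔ a < n ∧ n ∣ a ^ 2 + 1 := by
  unfold roots
  rw [Finset.mem_filter, Finset.mem_range]

private lemma roots_mul_le {m n : ℕ} (hm : 1 ≤ m) (hn : 1 ≤ n) (h : Nat.Coprime m n) :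
    (roots (m * n)).card ≤ (roots m).card * (roots n).card := by
  rw [← Finset.card_product]
  apply Finset.card_le_card_of_injOn (fun a => (a % m, a % n))
  · intro a ha
    rw [Finset.mem_coe, mem_roots'] at ha
    rw [Finset.mem_coe, Finset.mem_product, mem_roots', mem_roots']
    refine ⟨⟨Nat.mod_lt _ hm, ?_⟩, ⟨Nat.mod_lt _ hn, ?_⟩⟩
    · have h1 : m ∣ a ^ 2 + 1 := (Dvd.intro _ rfl).trans ha.2
      have h2 : (a % m) ^ 2 + 1 ≡ a ^ 2 + 1 [MOD m] := ((Nat.mod_modEq a m).pow 2).add_right 1
      exact (Nat.modEq_zero_iff_dvd.mp (h2.trans (Nat.modEq_zero_iff_dvd.mpr h1)))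
    · have h1 : n ∣ a ^ 2 + 1 := (Dvd.intro_left _ rfl).trans ha.2
      have h2 : (a % n) ^ 2 + 1 ≡ a ^ 2 + 1 [MOD n] := ((Nat.mod_modEq a n).pow 2).add_right 1
      exact (Nat.modEq_zero_iff_dvd.mp (h2.trans (Nat.modEq_zero_iff_dvd.mpr h1)))
  · intro a ha b hb hab
    rw [Finset.mem_coe, mem_roots'] at ha hb
    simp only [Prod.mk.injEq] at hab
    have h1 : a ≡ b [MOD m * n] := (Nat.modEq_and_modEq_iff_modEq_mul h).mp ⟨hab.1, hab.2⟩
    exact h1.eq_of_lt_of_lt ha.1 hb.1

private lemma not_four_dvd (a : ℕ) : ¬ 4 ∣ a ^ 2 + 1 := by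
  intro h
  have h2 : (a ^ 2 + 1) % 4 = 0 := Nat.mod_eq_zero_of_dvd h
  have h3 : a % 4 = 0 ∨ a % 4 = 1 ∨ a % 4 = 2 ∨ a % 4 = 3 := by omega
  rcases h3 with h3 | h3 | h3 | h3 <;> simp [Nat.add_mod, Nat.pow_mod, h3] at h2

private lemma roots_prime_pow_le {p e : ℕ} (hp : p.Prime) (he : 1 ≤ e) : (roots (p ^ e)).card ≤ 2 := by
  rcases hp.eq_two_or_odd with h2 | hodd
  · subst h2
    rcases Nat.lt_or_ge e 2 with h | h
    · have he1 : e = 1 := by omega
      subst he1
      refine (Finset.card_filter_le _ _).trans ?_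
      simp
    · have : roots (2 ^ e) = ∅ := by
        rw [Finset.eq_empty_iff_forall_notMem]
        intro a ha
        rw [mem_roots'] at ha
        apply not_four_dvd a
        have h4 : (2 : ℕ) ^ 2 ∣ 2 ^ e := Nat.pow_dvd_pow 2 h
        exact h4.trans ha.2
      rw [this]
      simp
  · rcases Finset.eq_empty_or_nonempty (roots (p ^ e)) with h | ⟨b, hb⟩
    · rw [h]
      simp
    · have hb' := mem_roots'.mp hb
      have hpb : ¬ p ∣ b := by
        intro h
        have h1 : p ∣ b ^ 2 + 1 := (dvd_pow_self p (by omega)).trans hb'.2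
        have h2 : p ∣ b ^ 2 := h.trans (dvd_pow_self b (by norm_num))
        have h3 : p ∣ 1 := (Nat.dvd_add_right h2).mp h1
        exact hp.one_lt.ne' (Nat.dvd_one.mp h3)
      have hsub : roots (p ^ e) ⊆ {b, p ^ e - b} := by
        intro a ha
        have ha' := mem_roots'.mp ha
        rw [Finset.mem_insert, Finset.mem_singleton]
        have hz : ((p : ℤ) ^ e) ∣ ((a : ℤ) - b) * ((a : ℤ) + b) := by
          have h1 : ((p : ℤ) ^ e) ∣ (a : ℤ) ^ 2 + 1 := by exact_mod_cast ha'.2
          have h2 : ((p : ℤ) ^ e) ∣ (b : ℤ) ^ 2 + 1 := by exact_mod_cast hb'.2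
          have h3 := dvd_sub h1 h2
          have e1 : ((a : ℤ) ^ 2 + 1) - ((b : ℤ) ^ 2 + 1) = ((a : ℤ) - b) * ((a : ℤ) + b) := by ring
          rwa [e1] at h3
        have hpz : Prime (p : ℤ) := Nat.prime_iff_prime_int.mp hp
        by_cases h1 : (p : ℤ) ∣ (a : ℤ) - b
        · have h2 : ¬ (p : ℤ) ∣ (a : ℤ) + b := by
            intro h2
            have h3 : (p : ℤ) ∣ 2 * (b : ℤ) := by
              have := dvd_sub h2 h1
              have e2 : ((a : ℤ) + b) - ((a : ℤ) - b) = 2 * (b : ℤ) := by ring
              rwa [e2] at this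
            rcases hpz.dvd_or_dvd h3 with h4 | h4
            · have h5 : p ∣ 2 := by exact_mod_cast h4
              have h6 := (Nat.prime_dvd_prime_iff_eq hp Nat.prime_two).mp h5
              omega
            · exact hpb (by exact_mod_cast h4)
          have hcop : IsCoprime ((p : ℤ) ^ e) ((a : ℤ) + b) :=
            ((hpz.coprime_iff_not_dvd).mpr h2).pow_left
          have h3 : ((p : ℤ) ^ e) ∣ (a : ℤ) - b := hcop.dvd_of_dvd_mul_right hz
          left
          have h4 : (b : ℤ) ≡ a [ZMOD ((p ^ e : ℕ) : ℤ)] := by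
            rw [Int.modEq_iff_dvd]
            exact_mod_cast h3
          have h5 : b ≡ a [MOD p ^ e] := (Int.natCast_modEq_iff).mp h4
          exact (h5.eq_of_lt_of_lt hb'.1 ha'.1).symm
        · have hcop : IsCoprime ((p : ℤ) ^ e) ((a : ℤ) - b) :=
            ((hpz.coprime_iff_not_dvd).mpr h1).pow_left
          have h3 : ((p : ℤ) ^ e) ∣ (a : ℤ) + b := hcop.dvd_of_dvd_mul_left hz
          right
          have h4 : p ^ e ∣ a + b := by exact_mod_cast h3
          obtain ⟨c, hc⟩ := h4
          have hb0 : 0 < b := Nat.pos_of_ne_zero (fun h => hpb (h ▸ dvd_zero p))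
          have hc1 : c = 1 := by
            have hc2 : c < 2 := by
              by_contra hc3
              have : p ^ e * 2 ≤ p ^ e * c := Nat.mul_le_mul_left _ (by omega)
              omega
            have hc3 : c ≠ 0 := by
              rintro rfl
              omega
            omega
          subst hc1
          omega
      exact (Finset.card_le_card hsub).trans Finset.card_le_two

theorem roots_card_le {n : ℕ} (hn : 1 ≤ n) : (roots n).card ≤ 2 ^ n.primeFactors.card := by
  induction n using Nat.recOnPosPrimePosCoprime with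
  | prime_pow p e hp he =>
    rw [Nat.primeFactors_prime_pow (by omega) hp, Finset.card_singleton, pow_one]
    exact roots_prime_pow_le hp he
  | zero => omega
  | one =>
    refine (Finset.card_filter_le _ _).trans ?_
    simp
  | coprime a b ha hb hab iha ihb =>
    rw [hab.primeFactors_mul, Finset.card_union_of_disjoint hab.disjoint_primeFactors, pow_add]
    exact (roots_mul_le (by omega) (by omega) hab).trans
      (Nat.mul_le_mul (iha (by omega)) (ihb (by omega)))

end Pool.Agent.Lib.XE
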