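import Pool.Agent.Lib.XE.RhoA

/-!
RHOB (row 6, 90 lines; uses `roots_card_le`). Words: if one `k` has `d | k` and `n | k^2+1` then `gcd (d, n) = 1`. The map
`k -> (k mod n, k / (d n) )` (or: `k mod (d n)`) : by the Chinese remainder theorem `k mod (d n)` is determined by `k mod n`, which
is in `roots n`, and `k = 0 mod d`. In `(X, 2X]` each residue class modulo `d n` has at most `X/(d n) + 1` elements
(`Nat.Ioc_filter_modEq_card` or injectivity of `k -> (k - X - 1) / (d n)` with values `<= (X-1)/(d n)`).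
-/

namespace Pool.Agent.Lib.XE

theorem cnt_le (X d n : ℕ) (hd : 1 ≤ d) (hn : 1 ≤ n) :
    ((Finset.Ioc X (2 * X)).filter fun k => d ∣ k ∧ n ∣ k ^ 2 + 1).card ≤
      2 ^ n.primeFactors.card * (X / (d * n) + 1) := by
  have hdn : 0 < d * n := Nat.mul_pos hd hn
  have hcard : ((Finset.Ioc X (2 * X)).filter fun k => d ∣ k ∧ n ∣ k ^ 2 + 1).card ≤
      ((roots n) ×ˢ Finset.range (X / (d * n) + 1)).card := by
    apply Finset.card_le_card_of_injOn (fun k => (k % n, (k - X - 1) / (d * n)))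
    · intro k hk
      rw [Finset.mem_coe, Finset.mem_filter, Finset.mem_Ioc] at hk
      obtain ⟨⟨h1, h2⟩, h3, h4⟩ := hk
      rw [Finset.mem_coe, Finset.mem_product, Finset.mem_range]
      refine ⟨?_, ?_⟩
      · rw [roots, Finset.mem_filter, Finset.mem_range]
        refine ⟨Nat.mod_lt _ hn, ?_⟩
        have h5 : (k % n) ^ 2 + 1 ≡ k ^ 2 + 1 [MOD n] := ((Nat.mod_modEq k n).pow 2).add_right 1
        exact (h5.dvd_iff dvd_rfl).mpr h4
      · exact Nat.lt_succ_of_le (Nat.div_le_div_right (by omega))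
    · intro k hk k' hk' h
      rw [Finset.mem_coe, Finset.mem_filter, Finset.mem_Ioc] at hk hk'
      obtain ⟨⟨h1, h2⟩, h3, h4⟩ := hk
      obtain ⟨⟨h1', h2'⟩, h3', h4'⟩ := hk'
      simp only [Prod.mk.injEq] at h
      obtain ⟨e1, e2⟩ := h
      have hcop : Nat.Coprime d n := by
        rw [Nat.coprime_iff_gcd_eq_one]
        have g1 : Nat.gcd d n ∣ k ^ 2 := (dvd_trans (Nat.gcd_dvd_left d n) h3).trans (dvd_pow_self k two_ne_zero)
        have g2 : Nat.gcd d n ∣ k ^ 2 + 1 := dvd_trans (Nat.gcd_dvd_right d n) h4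
        exact Nat.dvd_one.mp ((Nat.dvd_add_right g1).mp g2)
      have m1 : k ≡ k' [MOD n] := e1
      have m2 : k ≡ k' [MOD d] :=
        ((Nat.modEq_zero_iff_dvd.mpr h3)).trans (Nat.modEq_zero_iff_dvd.mpr h3').symm
      have m3 : k ≡ k' [MOD d * n] := (Nat.modEq_and_modEq_iff_modEq_mul hcop).mp ⟨m2, m1⟩
      have m4 : (k - X - 1) + (X + 1) ≡ (k' - X - 1) + (X + 1) [MOD d * n] := by
        rw [show k - X - 1 + (X + 1) = k by omega, show k' - X - 1 + (X + 1) = k' by omega]
        exact m3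
      have m5 : k - X - 1 ≡ k' - X - 1 [MOD d * n] := Nat.ModEq.add_right_cancel' (X + 1) m4
      have m6 : (k - X - 1) % (d * n) = (k' - X - 1) % (d * n) := m5
      have m7 : k - X - 1 = k' - X - 1 := by
        rw [← Nat.div_add_mod (k - X - 1) (d * n), ← Nat.div_add_mod (k' - X - 1) (d * n), e2, m6]
      omega
  calc ((Finset.Ioc X (2 * X)).filter fun k => d ∣ k ∧ n ∣ k ^ 2 + 1).card
      ≤ ((roots n) ×ˢ Finset.range (X / (d * n) + 1)).card := hcard
    _ = (roots n).card * (X / (d * n) + 1) := by rw [Finset.card_product, Finset.card_range]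
    _ ≤ 2 ^ n.primeFactors.card * (X / (d * n) + 1) := Nat.mul_le_mul_right _ (roots_card_le hn)

end Pool.Agent.Lib.XE
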