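import Pool.Agent.Lib.XE.Defs

/-!
VIET. `k = d*j`, `(1+d*t) * n' = k^2+1`, `t >= 1`, `n' > 1`. Modulo `d` the equation gives `n' = 1`, so `n' = 1 + d*u` with
`u >= 1`. Expand and divide by `d`: `t + u + d*t*u = d*j^2`, so `d` divides `t+u`; put `w = (t+u)/d >= 1`; then `w + t*u = j^2`, hence
`j^2 + t^2 = w + t*(t+u) = w*(t*d+1)`, the same for `u`, and `d <= d*w = t+u <= t*u+1 <= j^2`.
-/

namespace Pool.Agent.Lib.XE

theorem vieta {k d j t n' : ℕ} (hk : 1 ≤ k) (hj : k = d * j) (ht : 1 ≤ t) (hn' : 1 < n')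
    (hm : (1 + d * t) * n' = k ^ 2 + 1) :
    ∃ u w : ℕ, 1 ≤ u ∧ 1 ≤ w ∧ n' = 1 + d * u ∧ t + u = d * w ∧ t * u + w = j ^ 2 ∧
      j ^ 2 + t ^ 2 = w * (t * d + 1) ∧ j ^ 2 + u ^ 2 = w * (u * d + 1) ∧ d ≤ j ^ 2 := by
  have hd : 1 ≤ d := by
    rcases Nat.eq_zero_or_pos d with h | h
    · subst h; simp at hj; omega
    · exact h
  subst hj
  obtain ⟨n0, rfl⟩ : ∃ n0, n' = 1 + n0 := ⟨n' - 1, by omega⟩
  have hdiv : d ∣ n0 := by
    have h1 : n0 + d * (t * (1 + n0)) = d * (d * j ^ 2) := by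
      have : (1 + d * t) * (1 + n0) = (d * j) ^ 2 + 1 := hm
      ring_nf at this ⊢
      omega
    have h2 : d ∣ n0 + d * (t * (1 + n0)) := h1 ▸ Dvd.intro _ rfl
    exact (Nat.dvd_add_left (Dvd.intro _ rfl)).1 h2
  obtain ⟨u, rfl⟩ := hdiv
  have hu : 1 ≤ u := by
    rcases Nat.eq_zero_or_pos u with h | h
    · subst h; simp at hn'
    · exact h
  have e1 : t + u + d * (t * u) = d * j ^ 2 := by
    have h1 : d * (t + u + d * (t * u)) = d * (d * j ^ 2) := by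
      have : (1 + d * t) * (1 + d * u) = (d * j) ^ 2 + 1 := hm
      ring_nf at this ⊢
      omega
    exact Nat.eq_of_mul_eq_mul_left hd h1
  have hdw : d ∣ t + u := by
    have h2 : d ∣ t + u + d * (t * u) := e1 ▸ Dvd.intro _ rfl
    exact (Nat.dvd_add_left (Dvd.intro _ rfl)).1 h2
  obtain ⟨w, hw⟩ := hdw
  have hw1 : 1 ≤ w := by
    rcases Nat.eq_zero_or_pos w with h | h
    · subst h; simp at hw; omega
    · exact h
  have e2 : t * u + w = j ^ 2 := by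
    have h1 : d * (t * u + w) = d * j ^ 2 := by rw [← e1, hw]; ring
    exact Nat.eq_of_mul_eq_mul_left hd h1
  refine ⟨u, w, hu, hw1, rfl, hw, e2, ?_, ?_, ?_⟩
  · rw [← e2]
    calc t * u + w + t ^ 2 = t * (t + u) + w := by ring
      _ = w * (t * d + 1) := by rw [hw]; ring
  · rw [← e2]
    calc t * u + w + u ^ 2 = u * (t + u) + w := by ring
      _ = w * (u * d + 1) := by rw [hw]; ring
  · have h3 : t + u ≤ t * u + 1 := by
      obtain ⟨t0, rfl⟩ : ∃ t0, t = t0 + 1 := ⟨t - 1, by omega⟩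
      obtain ⟨u0, rfl⟩ : ∃ u0, u = u0 + 1 := ⟨u - 1, by omega⟩
      have h4 : (t0 + 1) * (u0 + 1) = t0 * u0 + t0 + u0 + 1 := by ring
      rw [h4]
      have h5 : 0 ≤ t0 * u0 := Nat.zero_le _
      omega
    calc d ≤ d * w := Nat.le_mul_of_pos_right d hw1
      _ = t + u := hw.symm
      _ ≤ t * u + 1 := h3
      _ ≤ t * u + w := by omega
      _ = j ^ 2 := e2

end Pool.Agent.Lib.XE
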